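import Mathlib

/-!
# Rado's boundedness conjecture for almost all tuples, and up to `log log` for all tuples

For an integer tuple `a = (a₁, ..., a_k)` which fails Rado's condition let `c a` be the least number of colours of
a colouring of the positive integers without monochromatic solution of `a₁ x₁ + ... + a_k x_k = 0`. The boundedness
conjecture states that `c a ≤ C(k)`. We prove, for every `k ≥ 1` and a constant `C = C(k)`, that for all `N` and `r` the
number of the tuples `a` of `[-N, N]^k` with `c a > r` is at most `C (2 N + 1)^k / 2^(2^(r / C))`. For bounded `r` this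
says that the conjecture holds for all but an arbitrarily small share of the tuples, and the average of `c a` is
bounded; for `r` about `log log N` there are no exceptions: `c a ≤ C log log A` for every tuple with `|a i| ≤ A`
(Rado's proof gives `log A`).

Method. Let `s_J` be the sum of the `a i`, `i ∈ J`, and let `q` be a prime which divides no `s_J`. For `t` modulo `q`,
a unit `x` is killed by `t` if the residue of `t s_J x` modulo `q` is far from `0` for all `J`. The units killed by one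
`t` are coloured by the cells of the residues of `t a_i x`, a bounded number of colours. For each unit at least half
of the `t` kill it, so `log q` values of `t` kill all units, and a positive integer is coloured by the colour of its
part prime to `q`. So if `c a > r`, then every prime `q ≤ exp (r / C)` divides some `s_J`, and such tuples are rare.
-/

namespace Pool.Agent.Results.MP_13469d_co.AlmostAll

open Finset

/-- Rado's condition: some nonempty subset of the coefficients has sum zero. -/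
def RadoCondition {k : ℕ} (a : Fin k → ℤ) : Prop :=
  ∃ I : Finset (Fin k), I.Nonempty ∧ ∑ i ∈ I, a i = 0

/-- The colouring `χ` has a monochromatic solution of `a₁ x₁ + ... + a_k x_k = 0`. -/
def HasMonoSol {k r : ℕ} (a : Fin k → ℤ) (χ : ℕ+ → Fin r) : Prop :=
  ∃ x : Fin k → ℕ+, (∀ i j, χ (x i) = χ (x j)) ∧ ∑ i, a i * ((x i : ℕ) : ℤ) = 0

/-- `c(a₁, ..., a_k)`: the least number of colours of a colouring without monochromatic
solution. -/
noncomputable def c {k : ℕ} (a : Fin k → ℤ) : ℕ :=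
  sInf {r : ℕ | ∃ χ : ℕ+ → Fin r, ¬ HasMonoSol a χ}

/-- `c a ≤ r`, and a colouring with `c a` colours without monochromatic solution exists. -/
def Bound {k : ℕ} (a : Fin k → ℤ) (r : ℕ) : Prop :=
  c a ≤ r ∧ ∃ χ : ℕ+ → Fin (c a), ¬ HasMonoSol a χ

lemma Bound.mono {k : ℕ} {a : Fin k → ℤ} {r r' : ℕ} (h : Bound a r) (hr : r ≤ r') : Bound a r' :=
  ⟨h.1.trans hr, h.2⟩

/-- a colouring by a finite type. -/
lemma bound_of {k : ℕ} {a : Fin k → ℤ} {α : Type} [Fintype α] (χ : ℕ → α)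
    (h : ∀ x : Fin k → ℕ, (∀ i, 0 < x i) → (∀ i j, χ (x i) = χ (x j)) → ∑ i, a i * (x i : ℤ) ≠ 0) :
    Bound a (Fintype.card α) := by
  have h1 : (Fintype.card α) ∈ {r : ℕ | ∃ χ : ℕ+ → Fin r, ¬ HasMonoSol a χ} := by
    refine ⟨fun n => Fintype.equivFin α (χ n), ?_⟩
    rintro ⟨x, hx, hs⟩
    refine h (fun i => (x i : ℕ)) (fun i => (x i).pos) (fun i j => ?_) hs
    exact (Fintype.equivFin α).injective (hx i j)
  exact ⟨Nat.sInf_le h1, Nat.sInf_mem ⟨_, h1⟩⟩

/-! ### cells -/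

/-- the cell of `y` modulo `q`. -/
def cell (N q : ℕ) [NeZero N] (y : ℤ) : Fin N := Fin.ofNat N ((N * (y % q) / q).toNat)

lemma cell_close {N q : ℕ} [NeZero N] (hq : 0 < q) {y z : ℤ} (h : cell N q y = cell N q z) :
    |y % q - z % q| * N < q := by
  have hq' : (0 : ℤ) < q := by exact_mod_cast hq
  have hN : 0 < N := Nat.pos_of_ne_zero (NeZero.ne N)
  have hN' : (0 : ℤ) < N := by exact_mod_cast hN
  have key : ∀ y : ℤ, 0 ≤ (N * (y % q) / q : ℤ) ∧ (N * (y % q) / q : ℤ) < N := by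
    intro y
    have h1 := Int.emod_nonneg y hq'.ne'
    have h2 := Int.emod_lt_of_pos y hq'
    refine ⟨Int.ediv_nonneg (by positivity) hq'.le, ?_⟩
    apply Int.ediv_lt_of_lt_mul hq'
    exact mul_lt_mul_of_pos_left h2 hN'
  have h3 : (N * (y % q) / q : ℤ) = N * (z % q) / q := by
    have h4 := congrArg Fin.val h
    simp only [cell, Fin.val_ofNat] at h4
    obtain ⟨a1, a2⟩ := key y
    obtain ⟨b1, b2⟩ := key z
    rw [Nat.mod_eq_of_lt (by omega), Nat.mod_eq_of_lt (by omega)] at h4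
    omega
  have h5 := Int.mul_ediv_add_emod (N * (y % q)) q
  have h6 := Int.mul_ediv_add_emod (N * (z % q)) q
  have h7 := Int.emod_nonneg (N * (y % q)) hq'.ne'
  have h8 := Int.emod_lt_of_pos (N * (y % q)) hq'
  have h9 := Int.emod_nonneg (N * (z % q)) hq'.ne'
  have h10 := Int.emod_lt_of_pos (N * (z % q)) hq'
  rw [h3] at h5
  have h11 : |y % q - z % q| * N = |N * (y % q) - N * (z % q)| := by
    rw [← mul_sub, abs_mul, abs_of_pos hN', mul_comm]
  rw [h11, abs_lt]
  constructor <;> linarith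

/-- The key step: sums in equal cells. -/
lemma cell_sum {ι : Type} {N q : ℕ} [NeZero N] (hq : 0 < q) {J : Finset ι} (hJ : J.Nonempty) {y z : ι → ℤ}
    (h : ∀ i ∈ J, cell N q (y i) = cell N q (z i)) :
    ∃ R : ℤ, |R| * N < J.card * q ∧ (q : ℤ) ∣ (∑ i ∈ J, z i + R) - ∑ i ∈ J, y i := by
  refine ⟨∑ i ∈ J, (y i % q - z i % q), ?_, ?_⟩
  · calc |∑ i ∈ J, (y i % q - z i % q)| * N ≤ (∑ i ∈ J, |y i % q - z i % q|) * N :=
        mul_le_mul_of_nonneg_right (abs_sum_le_sum_abs _ _) (by positivity)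
      _ = ∑ i ∈ J, |y i % q - z i % q| * N := by rw [sum_mul]
      _ < ∑ i ∈ J, (q : ℤ) := sum_lt_sum_of_nonempty hJ fun i hi => cell_close hq (h i hi)
      _ = J.card * q := by rw [sum_const, nsmul_eq_mul]
  · have e : (∑ i ∈ J, z i + ∑ i ∈ J, (y i % q - z i % q)) - ∑ i ∈ J, y i =
        ∑ i ∈ J, ((z i - z i % q) - (y i - y i % q)) := by
      simp only [sum_sub_distrib]
      ring
    rw [e]
    apply dvd_sum
    intro i _
    exact dvd_sub (Int.dvd_self_sub_emod) (Int.dvd_self_sub_emod)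

lemma sum_ne {k : ℕ} {a : Fin k → ℤ} (ha : ¬ RadoCondition a) {J : Finset (Fin k)} (hJ : J.Nonempty) :
    ∑ i ∈ J, a i ≠ 0 := fun h => ha ⟨J, hJ, h⟩

lemma coeff_ne {k : ℕ} {a : Fin k → ℤ} (ha : ¬ RadoCondition a) (i : Fin k) : a i ≠ 0 := by
  have h := sum_ne ha (singleton_nonempty i)
  rwa [sum_singleton] at h

/-! ### units -/

section Unit

/-- The part of `x` prime to `p`. -/
def unit (p x : ℕ) : ℕ := x / p ^ padicValNat p x

lemma pow_mul_unit (p x : ℕ) : p ^ padicValNat p x * unit p x = x :=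
  Nat.mul_div_cancel' pow_padicValNat_dvd

lemma not_dvd_unit (p : ℕ) [hp : Fact p.Prime] {x : ℕ} (hx : x ≠ 0) : ¬ p ∣ unit p x := by
  intro h
  apply pow_succ_padicValNat_not_dvd (p := p) hx
  rw [pow_succ]
  conv_rhs => rw [← pow_mul_unit p x]
  exact Nat.mul_dvd_mul_left _ h

end Unit

/-! ### colourings of the units of a prime field with `O(log q)` colours -/

section Field

/-- `t` kills `u`: all multiples `t s_J u` are far from `0` modulo `q`. -/
def Killed {k : ℕ} (a : Fin k → ℤ) (q M : ℕ) (t u : ℕ) : Prop :=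
  ∀ J : Finset (Fin k), J.Nonempty → ∀ R : ℤ, |R| * M < q → ¬ (q : ℤ) ∣ (t : ℤ) * (∑ i ∈ J, a i) * u + R

open Classical in
/-- at most half of the `t` do not kill a given unit. -/
lemma killed_half {k : ℕ} {a : Fin k → ℤ} {q : ℕ} (hq : q.Prime)
    (ha : ∀ J : Finset (Fin k), J.Nonempty → ¬ (q : ℤ) ∣ ∑ i ∈ J, a i) (hq2 : 2 ^ (k + 3) ≤ q)
    {u : ℕ} (hu : ¬ q ∣ u) :
    2 * ((range q).filter (fun t => ¬ Killed a q (2 ^ (k + 3)) t u)).card ≤ q := by
  obtain ⟨b, hb⟩ : ∃ b : ℕ, b = q / 2 ^ (k + 3) := ⟨_, rfl⟩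
  have hM : 0 < 2 ^ (k + 3) := by positivity
  have hb1 : b * 2 ^ (k + 3) ≤ q := by
    rw [hb]
    exact Nat.div_mul_le_self _ _
  have h1 : ∀ t ∈ (range q).filter (fun t => ¬ Killed a q (2 ^ (k + 3)) t u), ∃ y : Finset (Fin k) × ℤ,
      y ∈ (univ : Finset (Finset (Fin k))) ×ˢ (Finset.Icc (-(b : ℤ)) b) ∧ y.1.Nonempty ∧
        (q : ℤ) ∣ (t : ℤ) * (∑ i ∈ y.1, a i) * u + y.2 := by
    intro t ht
    obtain ⟨_, h2⟩ := mem_filter.1 ht
    unfold Killed at h2
    push Not at h2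
    obtain ⟨J, hJ, R, hR, hdvd⟩ := h2
    refine ⟨(J, R), ?_, hJ, hdvd⟩
    rw [mem_product, Finset.mem_Icc, ← abs_le]
    refine ⟨mem_univ _, ?_⟩
    have h3 : (R.natAbs) ≤ b := by
      rw [hb, Nat.le_div_iff_mul_le hM]
      zify
      exact hR.le
    rw [Int.abs_eq_natAbs]
    exact_mod_cast h3
  choose! F hF1 hF2 hF3 using h1
  have h2 : ((range q).filter (fun t => ¬ Killed a q (2 ^ (k + 3)) t u)).card ≤
      ((univ : Finset (Finset (Fin k))) ×ˢ (Finset.Icc (-(b : ℤ)) b)).card := by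
    apply card_le_card_of_injOn F hF1
    intro t ht t' ht' htt
    have h3 := hF3 t ht
    have h4 := hF3 t' ht'
    rw [htt] at h3
    have h5 := dvd_sub h3 h4
    have h6 : (t : ℤ) * (∑ i ∈ (F t').1, a i) * u + (F t').2 - ((t' : ℤ) * (∑ i ∈ (F t').1, a i) * u + (F t').2) =
        ((t : ℤ) - t') * ((∑ i ∈ (F t').1, a i) * u) := by ring
    rw [h6] at h5
    have hqp : Prime (q : ℤ) := Nat.prime_iff_prime_int.1 hq
    rcases hqp.dvd_or_dvd h5 with h7 | h7
    · have h8 : t < q := mem_range.1 (mem_filter.1 ht).1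
      have h9 : t' < q := mem_range.1 (mem_filter.1 ht').1
      have h10 := Int.eq_zero_of_abs_lt_dvd h7 (by
        rw [abs_lt]
        constructor <;> omega)
      omega
    · rcases hqp.dvd_or_dvd h7 with h8 | h8
      · exact absurd h8 (ha _ (hF2 t' ht'))
      · exact absurd (Int.natCast_dvd_natCast.1 h8) hu
  rw [card_product, card_univ, Fintype.card_finset, Fintype.card_fin, Int.card_Icc] at h2
  have h3 : ((b : ℤ) + 1 - -(b : ℤ)).toNat = 2 * b + 1 := by omega
  rw [h3] at h2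
  have h4 : 2 ^ (k + 3) = 8 * 2 ^ k := by rw [pow_add]; ring
  rw [h4] at hb1 hq2
  have h5 : 2 ^ k * (2 * b + 1) = 2 * (b * 2 ^ k) + 2 ^ k := by ring
  have h6 : b * (8 * 2 ^ k) = 8 * (b * 2 ^ k) := by ring
  rw [h5] at h2
  rw [h6] at hb1
  omega

open Classical in
lemma exists_killer {k : ℕ} {a : Fin k → ℤ} {q : ℕ} (hq : q.Prime)
    (ha : ∀ J : Finset (Fin k), J.Nonempty → ¬ (q : ℤ) ∣ ∑ i ∈ J, a i) (hq2 : 2 ^ (k + 3) ≤ q)
    (S : Finset ℕ) (hS : ∀ u ∈ S, ¬ q ∣ u) :
    ∃ t, 2 * (S.filter (fun u => ¬ Killed a q (2 ^ (k + 3)) t u)).card ≤ S.card := by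
  by_contra hcon
  push Not at hcon
  have h1 := sum_card_bipartiteAbove_eq_sum_card_bipartiteBelow (s := range q) (t := S)
    (fun t u => ¬ Killed a q (2 ^ (k + 3)) t u)
  unfold bipartiteAbove bipartiteBelow at h1
  beta_reduce at h1
  have h2 : ∑ t ∈ range q, S.card < 2 * ∑ t ∈ range q, (S.filter (fun u => ¬ Killed a q (2 ^ (k + 3)) t u)).card := by
    rw [mul_sum]
    exact sum_lt_sum_of_nonempty (nonempty_range_iff.2 hq.ne_zero) fun t _ => hcon t
  have h3 : 2 * ∑ u ∈ S, ((range q).filter (fun t => ¬ Killed a q (2 ^ (k + 3)) t u)).card ≤ ∑ u ∈ S, q := by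
    rw [mul_sum]
    exact sum_le_sum fun u hu => killed_half hq ha hq2 (hS u hu)
  rw [h1] at h2
  rw [sum_const, smul_eq_mul, card_range] at h2
  rw [sum_const, smul_eq_mul] at h3
  have h4 : q * S.card = S.card * q := mul_comm _ _
  omega

open Classical in
lemma exists_killers {k : ℕ} {a : Fin k → ℤ} {q : ℕ} (hq : q.Prime)
    (ha : ∀ J : Finset (Fin k), J.Nonempty → ¬ (q : ℤ) ∣ ∑ i ∈ J, a i) (hq2 : 2 ^ (k + 3) ≤ q) (m : ℕ) :
    ∀ S : Finset ℕ, (∀ u ∈ S, ¬ q ∣ u) → S.card < 2 ^ m →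
      ∃ T : Fin m → ℕ, ∀ u ∈ S, ∃ j, Killed a q (2 ^ (k + 3)) (T j) u := by
  induction m with
  | zero =>
    intro S _ hc
    refine ⟨fun _ => 0, fun u hu => ?_⟩
    rw [pow_zero, Nat.lt_one_iff, card_eq_zero] at hc
    rw [hc] at hu
    exact absurd hu (notMem_empty u)
  | succ m ih =>
    intro S hS hc
    obtain ⟨t, ht⟩ := exists_killer hq ha hq2 S hS
    obtain ⟨T, hT⟩ := ih (S.filter (fun u => ¬ Killed a q (2 ^ (k + 3)) t u))
      (fun u hu => hS u (mem_filter.1 hu).1) (by rw [pow_succ] at hc; omega)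
    refine ⟨Fin.cons t T, fun u hu => ?_⟩
    by_cases h : Killed a q (2 ^ (k + 3)) t u
    · exact ⟨0, h⟩
    · obtain ⟨j, hj⟩ := hT u (mem_filter.2 ⟨hu, h⟩)
      exact ⟨j.succ, by rwa [Fin.cons_succ]⟩

theorem field_place {k : ℕ} (hk : 0 < k) {a : Fin k → ℤ} {q : ℕ} (hq : q.Prime)
    (ha : ∀ J : Finset (Fin k), J.Nonempty → ¬ (q : ℤ) ∣ ∑ i ∈ J, a i) (hq2 : 2 ^ (k + 3) ≤ q) :
    Bound a ((Nat.log 2 q + 1) * (k * 2 ^ (k + 3)) ^ k) := by
  classical
  have : Fact q.Prime := ⟨hq⟩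
  have : NeZero (k * 2 ^ (k + 3)) := ⟨(Nat.mul_pos hk (by positivity)).ne'⟩
  have : Nonempty (Fin k) := ⟨⟨0, hk⟩⟩
  obtain ⟨T, hT⟩ := exists_killers hq ha hq2 (Nat.log 2 q + 1) ((range q).erase 0) (by
    intro u hu h
    rw [mem_erase, mem_range] at hu
    exact hu.1 (Nat.eq_zero_of_dvd_of_lt h hu.2)) (by
    refine lt_of_le_of_lt (card_erase_le) ?_
    rw [card_range]
    exact Nat.lt_pow_succ_log_self (by norm_num) _)
  have hT' : ∀ u : ℕ, ∃ j, ¬ q ∣ u → Killed a q (2 ^ (k + 3)) (T j) u := by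
    intro u
    by_cases hu : q ∣ u
    · exact ⟨0, fun h => absurd hu h⟩
    obtain ⟨j, hj⟩ := hT (u % q) (by
      rw [mem_erase, mem_range]
      exact ⟨fun h => hu (Nat.dvd_of_mod_eq_zero h), Nat.mod_lt _ hq.pos⟩)
    refine ⟨j, fun _ J hJ R hR hdvd => hj J hJ R hR ?_⟩
    have h1 : ((T j : ℤ) * (∑ i ∈ J, a i) * (u % q : ℕ) + R) = ((T j : ℤ) * (∑ i ∈ J, a i) * u + R) -
        (T j : ℤ) * (∑ i ∈ J, a i) * (q * (u / q : ℕ)) := by
      have h2 : ((u % q : ℕ) : ℤ) = u - q * (u / q : ℕ) := by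
        have h3 := Nat.mod_add_div u q
        have h4 : ((u % q + q * (u / q) : ℕ) : ℤ) = u := by rw [h3]
        rw [Nat.cast_add, Nat.cast_mul] at h4
        linarith
      rw [h2]
      ring
    rw [h1]
    exact dvd_sub hdvd (dvd_mul_of_dvd_right (dvd_mul_right _ _) _)
  choose jj hjj using hT'
  have hb := bound_of (a := a) (α := Fin (Nat.log 2 q + 1) × (Fin k → Fin (k * 2 ^ (k + 3))))
    (fun x => (jj (unit q x), fun i => cell (k * 2 ^ (k + 3)) q ((T (jj (unit q x)) : ℤ) * a i * (unit q x : ℤ)))) (by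
    intro x hx hχ hsum
    obtain ⟨V, hV⟩ : ∃ V : Fin k → ℕ, V = fun i => padicValNat q (x i) := ⟨_, rfl⟩
    obtain ⟨j, -, hj⟩ := exists_min_image univ V univ_nonempty
    obtain ⟨J, hJ⟩ : ∃ J : Finset (Fin k), J = univ.filter (fun i => V i = V j) := ⟨_, rfl⟩
    have memJ : ∀ i, i ∈ J ↔ V i = V j := by
      intro i
      rw [hJ, mem_filter]
      simp
    have hjJ : j ∈ J := (memJ j).2 rfl
    have hJn : J.Nonempty := ⟨j, hjJ⟩
    have hxV : ∀ i, (x i : ℤ) = (q : ℤ) ^ V i * (unit q (x i) : ℤ) := by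
      intro i
      rw [hV]
      exact_mod_cast (pow_mul_unit q (x i)).symm
    have claim3 : (q : ℤ) ^ (V j + 1) ∣ ∑ i ∈ J, a i * (x i : ℤ) := by
      have h1 : ∑ i ∈ J, a i * (x i : ℤ) = - ∑ i ∈ Jᶜ, a i * (x i : ℤ) := by
        rw [← sum_add_sum_compl J] at hsum
        linarith
      rw [h1, dvd_neg]
      apply dvd_sum
      intro i hi
      have h2 : V j + 1 ≤ V i := by
        have h3 := hj i (mem_univ i)
        have h4 : V i ≠ V j := fun h => (mem_compl.1 hi) ((memJ i).2 h)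
        omega
      rw [hxV i]
      exact (((pow_dvd_pow _ h2).mul_right _)).mul_left _
    have claim4 : (q : ℤ) ∣ ∑ i ∈ J, a i * (unit q (x i) : ℤ) := by
      have h1 : ∑ i ∈ J, a i * (x i : ℤ) = (q : ℤ) ^ V j * ∑ i ∈ J, a i * (unit q (x i) : ℤ) := by
        rw [mul_sum]
        apply sum_congr rfl
        intro i hi
        rw [hxV i, (memJ i).1 hi]
        ring
      rw [h1, pow_succ] at claim3
      have h2 : (q : ℤ) ^ V j ≠ 0 := pow_ne_zero _ (by exact_mod_cast hq.ne_zero)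
      exact (mul_dvd_mul_iff_left h2).1 claim3
    obtain ⟨t, ht⟩ : ∃ t : ℕ, t = T (jj (unit q (x j))) := ⟨_, rfl⟩
    have hkill := hjj (unit q (x j)) (not_dvd_unit q (hx j).ne')
    rw [← ht] at hkill
    obtain ⟨R, hR, hdvd⟩ := cell_sum (N := k * 2 ^ (k + 3)) hq.pos hJn
      (y := fun i => (t : ℤ) * a i * (unit q (x i) : ℤ)) (z := fun i => (t : ℤ) * a i * (unit q (x j) : ℤ))
      (fun i _ => by
        have h1 := congrFun (congrArg Prod.snd (hχ i j)) i
        have h2 := congrArg Prod.fst (hχ i j)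
        simp only at h1 h2
        rw [h2, ← ht] at h1
        exact h1)
    have h5 : ∑ i ∈ J, (t : ℤ) * a i * (unit q (x i) : ℤ) = t * ∑ i ∈ J, a i * (unit q (x i) : ℤ) := by
      rw [mul_sum]
      exact sum_congr rfl fun i _ => by ring
    have h6 : ∑ i ∈ J, (t : ℤ) * a i * (unit q (x j) : ℤ) = (t : ℤ) * (∑ i ∈ J, a i) * (unit q (x j) : ℤ) := by
      rw [mul_sum, sum_mul]
    rw [h5, h6] at hdvd
    refine hkill J hJn R ?_ ?_
    · have h1 : (J.card : ℤ) ≤ k := by
        have := card_le_univ J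
        rw [Fintype.card_fin] at this
        exact_mod_cast this
      have hk' : (0 : ℤ) < k := by exact_mod_cast hk
      have h2 : (J.card : ℤ) * (q : ℤ) ≤ k * q := mul_le_mul_of_nonneg_right h1 (by positivity)
      push_cast at hR ⊢
      have h3 : |R| * 2 ^ (k + 3) * k < q * k := by linarith
      exact lt_of_mul_lt_mul_right h3 hk'.le
    · have h7 := dvd_add hdvd (claim4.mul_left (t : ℤ))
      rwa [sub_add_cancel] at h7)
  rw [Fintype.card_prod, Fintype.card_fin, Fintype.card_fun, Fintype.card_fin, Fintype.card_fin] at hb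
  exact hb

end Field

/-! ### the universal bound -/

section Universal

lemma card_primeFactors_le {P : ℕ} (hP : P ≠ 0) : P.primeFactors.card ≤ Nat.log 2 P := by
  apply Nat.le_log_of_pow_le (by norm_num)
  calc 2 ^ P.primeFactors.card ≤ ∏ p ∈ P.primeFactors, p :=
        Finset.pow_card_le_prod _ _ _ fun p hp => (Nat.prime_of_mem_primeFactors hp).two_le
    _ ≤ P := Nat.le_of_dvd (Nat.pos_of_ne_zero hP) (Nat.prod_primeFactors_dvd P)

/-- a small prime which does not divide `P`. -/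
lemma exists_prime {P : ℕ} (hP : P ≠ 0) :
    ∃ q, q.Prime ∧ ¬ q ∣ P ∧ q ≤ 2 * (Nat.log 2 P + 4) ^ 2 := by
  by_contra hcon
  push Not at hcon
  obtain ⟨m, hm⟩ : ∃ m, m = Nat.log 2 P := ⟨_, rfl⟩
  obtain ⟨n, hn⟩ : ∃ n, n = (m + 4) ^ 2 := ⟨_, rfl⟩
  rw [← hm, ← hn] at hcon
  have hn4 : 4 ≤ n := by
    rw [hn]
    nlinarith
  have h1 := Nat.four_pow_lt_mul_centralBinom n hn4
  have h2 : n.centralBinom ≤ (2 * n) ^ m := by
    rw [← Nat.prod_pow_factorization_centralBinom n]
    have h3 : ∏ p ∈ range (2 * n + 1), p ^ (n.centralBinom.factorization p) =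
        ∏ p ∈ (range (2 * n + 1)).filter Nat.Prime, p ^ (n.centralBinom.factorization p) := by
      rw [prod_filter]
      apply prod_congr rfl
      intro p _
      split_ifs with h
      · rfl
      · rw [Nat.factorization_eq_zero_of_not_prime _ h, pow_zero]
    rw [h3]
    have h4 : ((range (2 * n + 1)).filter Nat.Prime).card ≤ m := by
      rw [hm]
      refine le_trans (card_le_card ?_) (card_primeFactors_le hP)
      intro p hp
      obtain ⟨hp1, hp2⟩ := mem_filter.1 hp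
      rw [Nat.mem_primeFactors]
      refine ⟨hp2, ?_, hP⟩
      by_contra h5
      have h6 := hcon p hp2 h5
      rw [mem_range] at hp1
      omega
    calc ∏ p ∈ (range (2 * n + 1)).filter Nat.Prime, p ^ (n.centralBinom.factorization p) ≤
          ∏ p ∈ (range (2 * n + 1)).filter Nat.Prime, (2 * n) :=
            prod_le_prod' fun p _ => Nat.pow_factorization_choose_le (by omega)
      _ = (2 * n) ^ ((range (2 * n + 1)).filter Nat.Prime).card := by rw [prod_const]
      _ ≤ (2 * n) ^ m := Nat.pow_le_pow_right (by omega) h4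
  have h3 : m + 4 ≤ 2 ^ (m + 3) := Nat.lt_two_pow_self
  have h4 : 2 * n ≤ 2 ^ (2 * m + 7) := by
    calc 2 * n = 2 * (m + 4) ^ 2 := by rw [hn]
      _ ≤ 2 * (2 ^ (m + 3)) ^ 2 := Nat.mul_le_mul_left _ (Nat.pow_le_pow_left h3 2)
      _ = 2 ^ (2 * m + 7) := by ring
  have h5 : n * n.centralBinom ≤ 4 ^ n := by
    calc n * n.centralBinom ≤ (2 * n) * (2 * n) ^ m := Nat.mul_le_mul (by omega) h2
      _ = (2 * n) ^ (m + 1) := by rw [pow_succ']
      _ ≤ (2 ^ (2 * m + 7)) ^ (m + 1) := Nat.pow_le_pow_left h4 _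
      _ = 2 ^ ((2 * m + 7) * (m + 1)) := by rw [← pow_mul]
      _ ≤ 2 ^ (2 * n) := by
          apply Nat.pow_le_pow_right (by norm_num)
          rw [hn]
          nlinarith
      _ = 4 ^ n := by
          rw [pow_mul]
          norm_num
  omega

theorem universal {k : ℕ} (hk : 0 < k) : ∃ C : ℕ, ∀ a : Fin k → ℤ, ¬ RadoCondition a → ∀ A : ℕ, 16 ≤ A →
    (∀ i, |a i| ≤ A) → Bound a (C * Nat.log 2 (Nat.log 2 A)) := by
  classical
  obtain ⟨f, hf⟩ : ∃ f, f = Nat.log 2 (Nat.factorial (2 ^ (k + 3))) + 1 := ⟨_, rfl⟩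
  obtain ⟨E, hE⟩ : ∃ E, E = 2 ^ k * (Nat.log 2 k + 3) + f + 1 := ⟨_, rfl⟩
  obtain ⟨e, he⟩ : ∃ e, e = Nat.log 2 E + 1 := ⟨_, rfl⟩
  refine ⟨(2 * e + 6) * (k * 2 ^ (k + 3)) ^ k, ?_⟩
  intro a ha A hA hle
  obtain ⟨L, hL⟩ : ∃ L, L = Nat.log 2 A := ⟨_, rfl⟩
  obtain ⟨l, hl⟩ : ∃ l, l = Nat.log 2 L := ⟨_, rfl⟩
  have hL4 : 4 ≤ L := by
    rw [hL]
    apply Nat.le_log_of_pow_le (by norm_num)
    omega
  have hl1 : 1 ≤ l := by
    rw [hl]
    apply Nat.le_log_of_pow_le (by norm_num)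
    omega
  rw [← hL, ← hl]
  obtain ⟨P, hP⟩ : ∃ P : ℕ, P = (∏ J ∈ (univ : Finset (Finset (Fin k))).filter (fun J => J.Nonempty),
    (∑ i ∈ J, a i).natAbs) * Nat.factorial (2 ^ (k + 3)) := ⟨_, rfl⟩
  have hP0 : P ≠ 0 := by
    rw [hP]
    apply mul_ne_zero
    · rw [prod_ne_zero_iff]
      intro J hJ
      exact Int.natAbs_ne_zero.2 (sum_ne ha (mem_filter.1 hJ).2)
    · exact Nat.factorial_ne_zero _
  obtain ⟨q, hq, hqP, hqle⟩ := exists_prime hP0
  have hq1 : ∀ J : Finset (Fin k), J.Nonempty → ¬ (q : ℤ) ∣ ∑ i ∈ J, a i := by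
    intro J hJ h
    apply hqP
    rw [hP]
    apply Dvd.dvd.mul_right
    refine dvd_trans ?_ (dvd_prod_of_mem (fun J : Finset (Fin k) => (∑ i ∈ J, a i).natAbs)
      (mem_filter.2 ⟨mem_univ J, hJ⟩))
    exact Int.natCast_dvd.1 h
  have hq2 : 2 ^ (k + 3) ≤ q := by
    by_contra hcon
    apply hqP
    rw [hP]
    apply Dvd.dvd.mul_left
    rw [hq.dvd_factorial]
    omega
  refine (field_place hk hq hq1 hq2).mono ?_
  -- the size of `P`
  have hkk : k < 2 ^ (Nat.log 2 k + 1) := Nat.lt_pow_succ_log_self (by norm_num) _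
  have hAA : A < 2 ^ (L + 1) := by
    rw [hL]
    exact Nat.lt_pow_succ_log_self (by norm_num) _
  have hFF : Nat.factorial (2 ^ (k + 3)) < 2 ^ f := by
    rw [hf]
    exact Nat.lt_pow_succ_log_self (by norm_num) _
  have hsle : ∀ J : Finset (Fin k), (∑ i ∈ J, a i).natAbs ≤ 2 ^ (Nat.log 2 k + L + 2) := by
    intro J
    have h1 : |∑ i ∈ J, a i| ≤ k * A := by
      calc |∑ i ∈ J, a i| ≤ ∑ i ∈ J, |a i| := abs_sum_le_sum_abs _ _
        _ ≤ ∑ i ∈ J, (A : ℤ) := sum_le_sum fun i _ => hle i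
        _ = J.card * A := by rw [sum_const, nsmul_eq_mul]
        _ ≤ k * A := by
            apply mul_le_mul_of_nonneg_right _ (by positivity)
            have := card_le_univ J
            rw [Fintype.card_fin] at this
            exact_mod_cast this
    have h2 : (∑ i ∈ J, a i).natAbs ≤ k * A := by
      zify
      exact h1
    calc (∑ i ∈ J, a i).natAbs ≤ k * A := h2
      _ ≤ 2 ^ (Nat.log 2 k + 1) * 2 ^ (L + 1) := Nat.mul_le_mul hkk.le hAA.le
      _ = 2 ^ (Nat.log 2 k + L + 2) := by rw [← pow_add]; congr 1; ring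
  have hPle : P ≤ 2 ^ ((Nat.log 2 k + L + 2) * 2 ^ k + f) := by
    rw [hP, pow_add 2 ((Nat.log 2 k + L + 2) * 2 ^ k) f, pow_mul 2 (Nat.log 2 k + L + 2) (2 ^ k)]
    apply Nat.mul_le_mul _ hFF.le
    calc ∏ J ∈ (univ : Finset (Finset (Fin k))).filter (fun J => J.Nonempty), (∑ i ∈ J, a i).natAbs ≤
          ∏ J ∈ (univ : Finset (Finset (Fin k))).filter (fun J => J.Nonempty), 2 ^ (Nat.log 2 k + L + 2) :=
            prod_le_prod' fun J _ => hsle J
      _ = (2 ^ (Nat.log 2 k + L + 2)) ^ ((univ : Finset (Finset (Fin k))).filter (fun J => J.Nonempty)).card := by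
          rw [prod_const]
      _ ≤ (2 ^ (Nat.log 2 k + L + 2)) ^ (2 ^ k) := by
          apply Nat.pow_le_pow_right (by positivity)
          refine le_trans (card_filter_le _ _) ?_
          rw [card_univ, Fintype.card_finset, Fintype.card_fin]
  have hlog : Nat.log 2 P ≤ (Nat.log 2 k + L + 2) * 2 ^ k + f := by
    calc Nat.log 2 P ≤ Nat.log 2 (2 ^ ((Nat.log 2 k + L + 2) * 2 ^ k + f)) := Nat.log_mono_right hPle
      _ = _ := Nat.log_pow (by norm_num) _
  have hmE : Nat.log 2 P + 4 ≤ E * L := by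
    have h1 : Nat.log 2 k + L + 2 ≤ (Nat.log 2 k + 3) * L := by nlinarith [Nat.zero_le (Nat.log 2 k)]
    have h2 : (Nat.log 2 k + L + 2) * 2 ^ k ≤ (Nat.log 2 k + 3) * L * 2 ^ k := Nat.mul_le_mul_right _ h1
    have h3 : f ≤ f * L := Nat.le_mul_of_pos_right _ (by omega)
    have h4 : E * L = (Nat.log 2 k + 3) * L * 2 ^ k + f * L + L := by
      rw [hE]
      ring
    omega
  have hEe : E ≤ 2 ^ e := by
    rw [he]
    exact (Nat.lt_pow_succ_log_self (by norm_num) _).le
  have hLl : L ≤ 2 ^ (l + 1) := by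
    rw [hl]
    exact (Nat.lt_pow_succ_log_self (by norm_num) _).le
  have hqle2 : q ≤ 2 ^ (2 * e + 2 * l + 3) := by
    calc q ≤ 2 * (Nat.log 2 P + 4) ^ 2 := hqle
      _ ≤ 2 * (2 ^ e * 2 ^ (l + 1)) ^ 2 :=
          Nat.mul_le_mul_left _ (Nat.pow_le_pow_left (hmE.trans (Nat.mul_le_mul hEe hLl)) 2)
      _ = 2 ^ (2 * e + 2 * l + 3) := by ring
  have hqlog : Nat.log 2 q ≤ 2 * e + 2 * l + 3 := by
    calc Nat.log 2 q ≤ Nat.log 2 (2 ^ (2 * e + 2 * l + 3)) := Nat.log_mono_right hqle2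
      _ = _ := Nat.log_pow (by norm_num) _
  calc (Nat.log 2 q + 1) * (k * 2 ^ (k + 3)) ^ k ≤ ((2 * e + 6) * l) * (k * 2 ^ (k + 3)) ^ k := by
        apply Nat.mul_le_mul_right
        nlinarith
    _ = (2 * e + 6) * (k * 2 ^ (k + 3)) ^ k * l := by ring

end Universal

/-! ### counting -/

section Count

/-- the box `[-N, N]^k`. -/
noncomputable def box (k N : ℕ) : Finset (Fin k → ℤ) := Fintype.piFinset fun _ => Finset.Icc (-(N : ℤ)) N

lemma card_box (k N : ℕ) : (box k N).card = (2 * N + 1) ^ k := by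
  unfold box
  rw [Fintype.card_piFinset, prod_const, card_univ, Fintype.card_fin, Int.card_Icc]
  congr 1
  omega

lemma mem_box {k N : ℕ} {a : Fin k → ℤ} : a ∈ box k N ↔ ∀ i, |a i| ≤ N := by
  unfold box
  rw [Fintype.mem_piFinset]
  exact forall_congr' fun i => by rw [Finset.mem_Icc, abs_le]

lemma card_dvd_le {N m : ℕ} (hm : 0 < m) (r : ℤ) :
    ((Finset.Icc (-(N : ℤ)) N).filter (fun z => (m : ℤ) ∣ z + r)).card ≤ 2 * N / m + 1 := by
  have hm' : (0 : ℤ) < m := by exact_mod_cast hm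
  have h0 : ∀ z ∈ (Finset.Icc (-(N : ℤ)) N).filter (fun z => (m : ℤ) ∣ z + r), 0 ≤ z + N ∧ z + N ≤ 2 * N := by
    intro z hz
    have h1 := Finset.mem_Icc.1 (mem_filter.1 hz).1
    omega
  rw [← card_range (2 * N / m + 1)]
  apply card_le_card_of_injOn (fun z : ℤ => ((z + N) / m).toNat)
  · intro z hz
    obtain ⟨h1, h2⟩ := h0 z hz
    have h3 : (z + N) / m ≤ (2 * N : ℤ) / m := Int.ediv_le_ediv hm' h2
    have h4 : ((2 * N : ℤ) / m) = ((2 * N / m : ℕ) : ℤ) := by push_cast; rfl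
    have h5 : 0 ≤ (z + N) / m := Int.ediv_nonneg h1 hm'.le
    simp only [coe_range, Set.mem_Iio]
    rw [h4] at h3
    omega
  · intro z hz z' hz' h
    obtain ⟨h1, h2⟩ := h0 z hz
    obtain ⟨h1', h2'⟩ := h0 z' hz'
    have h3 := (mem_filter.1 hz).2
    have h3' := (mem_filter.1 hz').2
    have h5 : 0 ≤ (z + N) / m := Int.ediv_nonneg h1 hm'.le
    have h5' : 0 ≤ (z' + N) / m := Int.ediv_nonneg h1' hm'.le
    simp only at h
    have h6 : (z + N) / m = (z' + N) / m := by omega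
    have h7 : (m : ℤ) ∣ z - z' := by
      have := dvd_sub h3 h3'
      rwa [add_sub_add_right_eq_sub] at this
    have h8 := Int.emod_add_mul_ediv (z + N) m
    have h8' := Int.emod_add_mul_ediv (z' + N) m
    have h9 := Int.emod_nonneg (z + N) hm'.ne'
    have h9' := Int.emod_nonneg (z' + N) hm'.ne'
    have h10 := Int.emod_lt_of_pos (z + N) hm'
    have h10' := Int.emod_lt_of_pos (z' + N) hm'
    rw [h6] at h8
    have h11 := Int.eq_zero_of_abs_lt_dvd h7 (by
      rw [abs_lt]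
      constructor <;> linarith)
    linarith

lemma card_dvd_sum_le {k N m : ℕ} (hm : 0 < m) {J : Finset (Fin k)} (hJ : J.Nonempty) :
    ((box k N).filter (fun a => (m : ℤ) ∣ ∑ i ∈ J, a i)).card ≤ (2 * N / m + 1) * (2 * N + 1) ^ (k - 1) := by
  obtain ⟨j, hj⟩ := hJ
  refine (card_le_mul_card_image (f := fun a => Function.update a j 0) _ (2 * N / m + 1) ?_).trans ?_
  · intro b _
    refine le_trans ?_ (card_dvd_le (N := N) hm (∑ i ∈ J.erase j, b i))
    apply card_le_card_of_injOn (fun a => a j)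
    · intro a ha
      obtain ⟨h1, h2⟩ := mem_filter.1 ha
      obtain ⟨h3, h4⟩ := mem_filter.1 h1
      have h5 := abs_le.1 (mem_box.1 h3 j)
      rw [mem_coe, mem_filter, Finset.mem_Icc]
      refine ⟨h5, ?_⟩
      rw [← add_sum_erase _ _ hj] at h4
      have h6 : ∑ i ∈ J.erase j, b i = ∑ i ∈ J.erase j, a i := by
        apply sum_congr rfl
        intro i hi
        rw [← h2, Function.update_of_ne (ne_of_mem_erase hi)]
      rw [h6]
      exact h4
    · intro a ha a' ha' h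
      have h2 := (mem_filter.1 ha).2
      have h2' := (mem_filter.1 ha').2
      simp only at h h2 h2'
      funext i
      by_cases hi : i = j
      · rw [hi, h]
      · have h3 := congrFun (h2.trans h2'.symm) i
        rwa [Function.update_of_ne hi, Function.update_of_ne hi] at h3
  · apply Nat.mul_le_mul_left
    have h1 : ((box k N).filter (fun a => (m : ℤ) ∣ ∑ i ∈ J, a i)).image (fun a => Function.update a j 0) ⊆
        Fintype.piFinset (fun i => if i = j then ({0} : Finset ℤ) else Finset.Icc (-(N : ℤ)) N) := by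
      intro b hb
      obtain ⟨a, ha, rfl⟩ := mem_image.1 hb
      rw [Fintype.mem_piFinset]
      intro i
      by_cases hi : i = j
      · rw [if_pos hi, hi, Function.update_self]
        exact mem_singleton_self _
      · rw [if_neg hi, Function.update_of_ne hi, Finset.mem_Icc]
        exact abs_le.1 (mem_box.1 (mem_filter.1 ha).1 i)
    refine (card_le_card h1).trans ?_
    rw [Fintype.card_piFinset, ← mul_prod_erase _ _ (mem_univ j), if_pos rfl, card_singleton, one_mul]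
    have h2 : ∏ i ∈ univ.erase j, (if i = j then ({0} : Finset ℤ) else Finset.Icc (-(N : ℤ)) N).card =
        ∏ i ∈ univ.erase j, (2 * N + 1) := by
      apply prod_congr rfl
      intro i hi
      rw [if_neg (ne_of_mem_erase hi), Int.card_Icc]
      omega
    rw [h2, prod_const, card_erase_of_mem (mem_univ j), card_univ, Fintype.card_fin]

end Count

/-! ### the tail -/

section Tail

open Classical in
/-- the tuples of the box which fail Rado's condition and need more than `r` colours. -/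
noncomputable def Exc (k N r : ℕ) : Finset (Fin k → ℤ) :=
  (box k N).filter fun a => ¬ RadoCondition a ∧ ¬ Bound a r

open Classical in
lemma tail_of_primes {k : ℕ} (hk : 0 < k) {N r m : ℕ} {Q : Finset ℕ}
    (hQ : ∀ q ∈ Q, q.Prime ∧ 2 ^ (2 ^ k + k + 3) ≤ q ∧ (Nat.log 2 q + 1) * (k * 2 ^ (k + 3)) ^ k ≤ r)
    (hcard : Q.card = 2 ^ k * m) :
    (Exc k N r).card * 2 ^ m ≤ 2 ^ (k + 1) * (2 * N + 1) ^ k := by
  have hcard0 : (Exc k N r).card ≤ (2 * N + 1) ^ k := by
    rw [← card_box]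
    exact card_filter_le _ _
  rcases Nat.eq_zero_or_pos m with hm | hm
  · rw [hm, pow_zero, mul_one]
    exact hcard0.trans (Nat.le_mul_of_pos_left _ (by positivity))
  obtain ⟨B, hB⟩ : ∃ B, B = 2 ^ k + k + 3 := ⟨_, rfl⟩
  rw [← hB] at hQ
  -- a set of `m` primes which divide one subset sum
  have key : ∀ a ∈ Exc k N r, ∃ J : Finset (Fin k), J.Nonempty ∧ ∃ T ∈ Q.powersetCard m,
      ((∏ q ∈ T, q : ℕ) : ℤ) ∣ ∑ i ∈ J, a i := by
    intro a ha
    obtain ⟨-, hR, hbd⟩ := mem_filter.1 ha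
    have h1 : ∀ q ∈ Q, ∃ J : Finset (Fin k), J.Nonempty ∧ (q : ℤ) ∣ ∑ i ∈ J, a i := by
      intro q hq
      obtain ⟨hq1, hq2, hq3⟩ := hQ q hq
      by_contra hcon
      push Not at hcon
      refine hbd ((field_place hk hq1 hcon ?_).mono hq3)
      have h2k : 0 < 2 ^ k := by positivity
      exact (Nat.pow_le_pow_right (by norm_num) (by omega)).trans hq2
    choose! F hF1 hF2 using h1
    obtain ⟨J, -, hJ⟩ := exists_le_card_fiber_of_mul_le_card_of_maps_to (s := Q)
      (t := (univ : Finset (Finset (Fin k)))) (f := F) (n := m) (fun _ _ => mem_univ _) univ_nonempty (by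
        rw [card_univ, Fintype.card_finset, Fintype.card_fin, hcard])
    obtain ⟨T, hT1, hT2⟩ := exists_subset_card_eq hJ
    have hJn : J.Nonempty := by
      have h2 : T.Nonempty := card_pos.1 (by omega)
      obtain ⟨q, hq⟩ := h2
      obtain ⟨hq1, hq2⟩ := mem_filter.1 (hT1 hq)
      rw [← hq2]
      exact hF1 q hq1
    refine ⟨J, hJn, T, mem_powersetCard.2 ⟨fun q hq => (mem_filter.1 (hT1 hq)).1, hT2⟩, ?_⟩
    rw [Int.natCast_dvd]
    apply prod_primes_dvd
    · intro q hq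
      exact (hQ q (mem_filter.1 (hT1 hq)).1).1.prime
    · intro q hq
      obtain ⟨hq1, hq2⟩ := mem_filter.1 (hT1 hq)
      rw [← Int.natCast_dvd, ← hq2]
      exact hF2 q hq1
  have hprod : ∀ T ∈ Q.powersetCard m, 2 ^ (B * m) ≤ ∏ q ∈ T, q := by
    intro T hT
    obtain ⟨hT1, hT2⟩ := mem_powersetCard.1 hT
    rw [pow_mul, ← hT2]
    exact pow_card_le_prod _ _ _ fun q hq => (hQ q (hT1 hq)).2.1
  rcases lt_or_ge (2 * N + 1) (2 ^ ((2 ^ k + 1) * m)) with hsmall | hlarge
  · -- no exceptions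
    have h0 : Exc k N r = ∅ := by
      rw [eq_empty_iff_forall_notMem]
      intro a ha
      obtain ⟨J, hJ, T, hT, hdvd⟩ := key a ha
      obtain ⟨hbox, hR, -⟩ := mem_filter.1 ha
      apply sum_ne hR hJ
      apply Int.eq_zero_of_abs_lt_dvd hdvd
      have h1 : |∑ i ∈ J, a i| ≤ k * N := by
        calc |∑ i ∈ J, a i| ≤ ∑ i ∈ J, |a i| := abs_sum_le_sum_abs _ _
          _ ≤ ∑ i ∈ J, (N : ℤ) := sum_le_sum fun i _ => mem_box.1 hbox i
          _ = J.card * N := by rw [sum_const, nsmul_eq_mul]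
          _ ≤ k * N := by
              apply mul_le_mul_of_nonneg_right _ (by positivity)
              have := card_le_univ J
              rw [Fintype.card_fin] at this
              exact_mod_cast this
      have h2 : k * N < ∏ q ∈ T, q := by
        refine lt_of_lt_of_le ?_ (hprod T hT)
        calc k * N < 2 ^ k * (2 * N + 1) :=
              Nat.mul_lt_mul_of_lt_of_le Nat.lt_two_pow_self (by omega) (by omega)
          _ ≤ 2 ^ k * 2 ^ ((2 ^ k + 1) * m) := Nat.mul_le_mul_left _ hsmall.le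
          _ ≤ 2 ^ (B * m) := by
              rw [← pow_add]
              apply Nat.pow_le_pow_right (by norm_num)
              rw [hB]
              nlinarith
      refine lt_of_le_of_lt h1 ?_
      exact_mod_cast h2
    rw [h0, card_empty, zero_mul]
    exact Nat.zero_le _
  · have h1 : Exc k N r ⊆ ((univ : Finset (Finset (Fin k))).filter (fun J => J.Nonempty)).biUnion fun J =>
        (Q.powersetCard m).biUnion fun T =>
          (box k N).filter (fun a => ((∏ q ∈ T, q : ℕ) : ℤ) ∣ ∑ i ∈ J, a i) := by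
      intro a ha
      obtain ⟨J, hJ, T, hT, hdvd⟩ := key a ha
      rw [mem_biUnion]
      refine ⟨J, mem_filter.2 ⟨mem_univ _, hJ⟩, ?_⟩
      rw [mem_biUnion]
      exact ⟨T, hT, mem_filter.2 ⟨(mem_filter.1 ha).1, hdvd⟩⟩
    have h2 : (Exc k N r).card ≤ 2 ^ k * (2 ^ (2 ^ k * m) * ((2 * N / 2 ^ (B * m) + 1) * (2 * N + 1) ^ (k - 1))) := by
      refine (card_le_card h1).trans ?_
      refine card_biUnion_le.trans ?_
      calc ∑ J ∈ (univ : Finset (Finset (Fin k))).filter (fun J => J.Nonempty),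
            ((Q.powersetCard m).biUnion fun T =>
              (box k N).filter (fun a => ((∏ q ∈ T, q : ℕ) : ℤ) ∣ ∑ i ∈ J, a i)).card
          ≤ ∑ J ∈ (univ : Finset (Finset (Fin k))).filter (fun J => J.Nonempty),
            (2 ^ (2 ^ k * m) * ((2 * N / 2 ^ (B * m) + 1) * (2 * N + 1) ^ (k - 1))) := by
            apply sum_le_sum
            intro J hJ
            refine card_biUnion_le.trans ?_
            calc ∑ T ∈ Q.powersetCard m, ((box k N).filter (fun a => ((∏ q ∈ T, q : ℕ) : ℤ) ∣ ∑ i ∈ J, a i)).card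
                ≤ ∑ T ∈ Q.powersetCard m, ((2 * N / 2 ^ (B * m) + 1) * (2 * N + 1) ^ (k - 1)) := by
                  apply sum_le_sum
                  intro T hT
                  have h3 := hprod T hT
                  have h4 : 0 < 2 ^ (B * m) := by positivity
                  refine (card_dvd_sum_le (lt_of_lt_of_le h4 h3) (mem_filter.1 hJ).2).trans ?_
                  apply Nat.mul_le_mul_right
                  have h5 : 2 * N / ∏ q ∈ T, q ≤ 2 * N / 2 ^ (B * m) := Nat.div_le_div_left h3 h4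
                  omega
              _ = (Q.powersetCard m).card * ((2 * N / 2 ^ (B * m) + 1) * (2 * N + 1) ^ (k - 1)) := by
                  rw [sum_const, smul_eq_mul]
              _ ≤ 2 ^ (2 ^ k * m) * ((2 * N / 2 ^ (B * m) + 1) * (2 * N + 1) ^ (k - 1)) := by
                  apply Nat.mul_le_mul_right
                  rw [card_powersetCard, hcard]
                  exact Nat.choose_le_two_pow _ _
        _ = ((univ : Finset (Finset (Fin k))).filter (fun J => J.Nonempty)).card *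
            (2 ^ (2 ^ k * m) * ((2 * N / 2 ^ (B * m) + 1) * (2 * N + 1) ^ (k - 1))) := by
            rw [sum_const, smul_eq_mul]
        _ ≤ _ := by
            apply Nat.mul_le_mul_right
            refine (card_filter_le _ _).trans ?_
            rw [card_univ, Fintype.card_finset, Fintype.card_fin]
    have h3 : 2 ^ ((2 ^ k + 1) * m) * (2 * N / 2 ^ (B * m) + 1) ≤ 2 * (2 * N + 1) := by
      have h4 : 2 ^ ((2 ^ k + 1) * m) ≤ 2 ^ (B * m) := by
        apply Nat.pow_le_pow_right (by norm_num)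
        apply Nat.mul_le_mul_right
        omega
      have h5 : 2 ^ ((2 ^ k + 1) * m) * (2 * N / 2 ^ (B * m)) ≤ 2 * N :=
        (Nat.mul_le_mul_right _ h4).trans (Nat.mul_div_le _ _)
      rw [mul_add, mul_one]
      omega
    calc (Exc k N r).card * 2 ^ m ≤
          2 ^ k * (2 ^ (2 ^ k * m) * ((2 * N / 2 ^ (B * m) + 1) * (2 * N + 1) ^ (k - 1))) * 2 ^ m :=
            Nat.mul_le_mul_right _ h2
      _ = 2 ^ k * (2 ^ ((2 ^ k + 1) * m) * (2 * N / 2 ^ (B * m) + 1)) * (2 * N + 1) ^ (k - 1) := by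
          rw [add_mul (2 ^ k) 1 m, one_mul, pow_add 2 (2 ^ k * m) m]
          ring
      _ ≤ 2 ^ k * (2 * (2 * N + 1)) * (2 * N + 1) ^ (k - 1) :=
          Nat.mul_le_mul_right _ (Nat.mul_le_mul_left _ h3)
      _ = 2 ^ (k + 1) * (2 * N + 1) ^ (k - 1 + 1) := by ring
      _ = 2 ^ (k + 1) * (2 * N + 1) ^ k := by rw [Nat.sub_add_cancel hk]

lemma le_eight_mul (n : ℕ) : n ≤ 2 ^ (n / 8 + 3) := by
  have h1 : n / 8 < 2 ^ (n / 8) := Nat.lt_two_pow_self
  have h2 : 2 ^ (n / 8 + 3) = 8 * 2 ^ (n / 8) := by ring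
  omega

lemma many_primes {k n j B : ℕ} (hkB : k ≤ B) (hn : 4 * B + 23 ≤ n) (hj : j ≤ n / 8) :
    2 ^ k * 2 ^ j ≤ ((range (2 ^ n)).filter (fun q => q.Prime ∧ 2 ^ B ≤ q)).card := by
  by_contra hcon
  push Not at hcon
  obtain ⟨P, hP⟩ : ∃ P, P = ∏ q ∈ (range (2 ^ n)).filter Nat.Prime, q := ⟨_, rfl⟩
  have hP0 : P ≠ 0 := by
    rw [hP, prod_ne_zero_iff]
    intro q hq
    exact (mem_filter.1 hq).2.ne_zero
  obtain ⟨q, hq, hqP, hqle⟩ := exists_prime hP0
  have hq2 : 2 ^ n ≤ q := by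
    by_contra h
    apply hqP
    rw [hP]
    exact dvd_prod_of_mem _ (mem_filter.2 ⟨mem_range.2 (by omega), hq⟩)
  have hcard : ((range (2 ^ n)).filter Nat.Prime).card ≤ 2 ^ (B + j + 1) := by
    have h1 : (range (2 ^ n)).filter Nat.Prime ⊆
        (range (2 ^ n)).filter (fun q => q.Prime ∧ 2 ^ B ≤ q) ∪ range (2 ^ B) := by
      intro p hp
      obtain ⟨hp1, hp2⟩ := mem_filter.1 hp
      rw [mem_union]
      by_cases h : 2 ^ B ≤ p
      · exact Or.inl (mem_filter.2 ⟨hp1, hp2, h⟩)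
      · exact Or.inr (mem_range.2 (by omega))
    have h2 := (card_le_card h1).trans (card_union_le _ _)
    rw [card_range] at h2
    have h3 : 2 ^ k * 2 ^ j ≤ 2 ^ (B + j) := by
      rw [← pow_add]
      exact Nat.pow_le_pow_right (by norm_num) (by omega)
    have h4 : 2 ^ B ≤ 2 ^ (B + j) := Nat.pow_le_pow_right (by norm_num) (by omega)
    have h5 : 2 ^ (B + j + 1) = 2 ^ (B + j) + 2 ^ (B + j) := by ring
    omega
  have hPle : P ≤ 2 ^ (n * 2 ^ (B + j + 1)) := by
    rw [hP]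
    calc ∏ q ∈ (range (2 ^ n)).filter Nat.Prime, q ≤ ∏ q ∈ (range (2 ^ n)).filter Nat.Prime, 2 ^ n :=
          prod_le_prod' fun q hq => (mem_range.1 (mem_filter.1 hq).1).le
      _ = (2 ^ n) ^ ((range (2 ^ n)).filter Nat.Prime).card := by rw [prod_const]
      _ ≤ (2 ^ n) ^ 2 ^ (B + j + 1) := Nat.pow_le_pow_right (by positivity) hcard
      _ = 2 ^ (n * 2 ^ (B + j + 1)) := by rw [← pow_mul]
  have hlog : Nat.log 2 P ≤ n * 2 ^ (B + j + 1) := by
    calc Nat.log 2 P ≤ Nat.log 2 (2 ^ (n * 2 ^ (B + j + 1))) := Nat.log_mono_right hPle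
      _ = _ := Nat.log_pow (by norm_num) _
  have h1 : Nat.log 2 P + 4 ≤ 2 ^ (n / 8 + B + j + 5) := by
    have h2 : n * 2 ^ (B + j + 1) ≤ 2 ^ (n / 8 + 3) * 2 ^ (B + j + 1) := Nat.mul_le_mul_right _ (le_eight_mul n)
    have h3 : 2 ^ (n / 8 + 3) * 2 ^ (B + j + 1) = 2 ^ (n / 8 + B + j + 4) := by rw [← pow_add]; congr 1; ring
    have h4 : 2 ^ 2 ≤ 2 ^ (n / 8 + B + j + 4) := Nat.pow_le_pow_right (by norm_num) (by omega)
    have h5 : 2 ^ (n / 8 + B + j + 5) = 2 ^ (n / 8 + B + j + 4) + 2 ^ (n / 8 + B + j + 4) := by ring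
    omega
  have h2 : 2 ^ n ≤ 2 ^ (2 * (n / 8 + B + j + 5) + 1) := by
    calc 2 ^ n ≤ q := hq2
      _ ≤ 2 * (Nat.log 2 P + 4) ^ 2 := hqle
      _ ≤ 2 * (2 ^ (n / 8 + B + j + 5)) ^ 2 := Nat.mul_le_mul_left _ (Nat.pow_le_pow_left h1 2)
      _ = 2 ^ (2 * (n / 8 + B + j + 5) + 1) := by ring
  have h3 := (Nat.pow_le_pow_iff_right (by norm_num : 1 < 2)).1 h2
  omega

theorem tail {k : ℕ} (hk : 0 < k) : ∃ C : ℕ, 0 < C ∧ ∀ N r : ℕ,
    (Exc k N r).card * 2 ^ (2 ^ (r / C)) ≤ C * (2 * N + 1) ^ k := by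
  classical
  obtain ⟨B, hB⟩ : ∃ B, B = 2 ^ k + k + 3 := ⟨_, rfl⟩
  obtain ⟨D, hD⟩ : ∃ D, D = (k * 2 ^ (k + 3)) ^ k := ⟨_, rfl⟩
  have hD0 : 0 < D := by
    rw [hD]
    exact pow_pos (Nat.mul_pos hk (by positivity)) _
  obtain ⟨C, hC⟩ : ∃ C, C = D * (4 * B + 24) + 2 ^ (k + 1) := ⟨_, rfl⟩
  have h2C : 2 ^ (k + 1) ≤ C := by
    rw [hC]
    exact Nat.le_add_left _ _
  have hk2 : 2 ^ (k + 1) = 2 * 2 ^ k := by ring
  have hk1 : 0 < 2 ^ k := by positivity
  refine ⟨C, by omega, fun N r => ?_⟩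
  have hcard0 : (Exc k N r).card ≤ (2 * N + 1) ^ k := by
    rw [← card_box]
    exact card_filter_le _ _
  rcases lt_or_ge r C with hr | hr
  · rw [Nat.div_eq_of_lt hr, pow_zero, pow_one, mul_comm]
    exact Nat.mul_le_mul (by omega) hcard0
  obtain ⟨n, hn⟩ : ∃ n, n = r / D := ⟨_, rfl⟩
  have hn1 : 4 * B + 23 ≤ n := by
    rw [hn, Nat.le_div_iff_mul_le hD0]
    have h1 : (4 * B + 23) * D ≤ D * (4 * B + 24) := by nlinarith
    omega
  have hj : r / C ≤ n / 8 := by
    rw [hn, Nat.div_div_eq_div_mul]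
    apply Nat.div_le_div_left _ (by omega)
    rw [hC]
    have h1 : D * 8 ≤ D * (4 * B + 24) := Nat.mul_le_mul_left _ (by omega)
    omega
  have h1 := many_primes (k := k) (B := B) (by omega) hn1 hj
  obtain ⟨Q, hQ1, hQ2⟩ := exists_subset_card_eq h1
  have h2 := tail_of_primes hk (N := N) (r := r) (m := 2 ^ (r / C)) (Q := Q) (by
    intro q hq
    obtain ⟨hq1, hq2, hq3⟩ := mem_filter.1 (hQ1 hq)
    refine ⟨hq2, by rw [← hB]; exact hq3, ?_⟩
    rw [← hD]
    have h3 : Nat.log 2 q < n := Nat.log_lt_of_lt_pow hq2.ne_zero (mem_range.1 hq1)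
    calc (Nat.log 2 q + 1) * D ≤ n * D := Nat.mul_le_mul_right _ h3
      _ ≤ r := by
        rw [hn]
        exact Nat.div_mul_le_self _ _) hQ2
  exact h2.trans (Nat.mul_le_mul_right _ h2C)

open Classical in
theorem average {k : ℕ} (hk : 0 < k) : ∃ C : ℕ, ∀ N : ℕ,
    ∑ a ∈ (box k N).filter (fun a => ¬ RadoCondition a), c a ≤ C * (2 * N + 1) ^ k := by
  obtain ⟨C, hC, hT⟩ := tail hk
  refine ⟨C * C, fun N => ?_⟩
  obtain ⟨S, hS⟩ : ∃ S : Finset (Fin k → ℤ), S = (box k N).filter (fun a => ¬ RadoCondition a) := ⟨_, rfl⟩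
  obtain ⟨X, hX⟩ : ∃ X, X = C * (2 * N + 1) ^ k := ⟨_, rfl⟩
  rw [← hS, mul_assoc, ← hX]
  have h1 : ∀ M : ℕ, (∑ r ∈ range (C * M), (Exc k N r).card) * 2 ^ M + C * X ≤ C * X * 2 ^ M := by
    intro M
    induction M with
    | zero => simp
    | succ M ih =>
      have h2 : ∀ x ∈ range C, (Exc k N (C * M + x)).card * 2 ^ (M + 1) ≤ X := by
        intro x hx
        have h3 := hT N (C * M + x)
        have h4 : (C * M + x) / C = M := by
          rw [Nat.mul_add_div hC, Nat.div_eq_of_lt (mem_range.1 hx), add_zero]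
        rw [h4, ← hX] at h3
        refine le_trans (Nat.mul_le_mul_left _ ?_) h3
        exact Nat.pow_le_pow_right (by norm_num) Nat.lt_two_pow_self
      have h5 : (∑ x ∈ range C, (Exc k N (C * M + x)).card) * 2 ^ (M + 1) ≤ C * X := by
        rw [sum_mul]
        calc ∑ x ∈ range C, (Exc k N (C * M + x)).card * 2 ^ (M + 1) ≤ ∑ x ∈ range C, X := sum_le_sum h2
          _ = C * X := by rw [sum_const, card_range, smul_eq_mul]
      rw [mul_add C M 1, mul_one, sum_range_add, add_mul]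
      have h6 : (∑ r ∈ range (C * M), (Exc k N r).card) * 2 ^ (M + 1) =
          2 * ((∑ r ∈ range (C * M), (Exc k N r).card) * 2 ^ M) := by ring
      have h7 : C * X * 2 ^ (M + 1) = 2 * (C * X * 2 ^ M) := by ring
      rw [h6, h7]
      omega
  obtain ⟨R, hR⟩ : ∃ R, R = S.sup c := ⟨_, rfl⟩
  have h2 : ∑ a ∈ S, c a ≤ ∑ r ∈ range (C * R), (Exc k N r).card := by
    have h3 : ∀ a ∈ S, c a = ((range (C * R)).filter (fun r => r < c a)).card := by
      intro a ha
      have h4 : (range (C * R)).filter (fun r => r < c a) = range (c a) := by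
        have h5 : c a ≤ C * R := by
          have h6 : c a ≤ R := by
            rw [hR]
            exact le_sup (f := c) ha
          exact h6.trans (Nat.le_mul_of_pos_left _ hC)
        ext r
        rw [mem_filter, mem_range, mem_range]
        omega
      rw [h4, card_range]
    rw [sum_congr rfl h3]
    have h4 := sum_card_bipartiteAbove_eq_sum_card_bipartiteBelow (s := S) (t := range (C * R))
      (fun a r => r < c a)
    unfold bipartiteAbove bipartiteBelow at h4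
    beta_reduce at h4
    rw [h4]
    apply sum_le_sum
    intro r _
    apply card_le_card
    intro a ha
    obtain ⟨h5, h6⟩ := mem_filter.1 ha
    rw [hS] at h5
    obtain ⟨h7, h8⟩ := mem_filter.1 h5
    refine mem_filter.2 ⟨h7, h8, fun h9 => ?_⟩
    have := h9.1
    omega
  have h3 := h1 R
  have h4 : (∑ r ∈ range (C * R), (Exc k N r).card) * 2 ^ R ≤ C * X * 2 ^ R := by omega
  exact h2.trans (Nat.le_of_mul_le_mul_right h4 (by positivity))

end Tail

/-! ### the result -/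

open Classical in
/-- Rado's boundedness conjecture holds up to a doubly exponentially small share of the tuples, on average, and up
to the factor `log log A`. -/
theorem result (k : ℕ) (hk : 0 < k) : ∃ C : ℕ, 0 < C ∧
    (∀ N r : ℕ, ((box k N).filter fun a => ¬ RadoCondition a ∧ ¬ Bound a r).card * 2 ^ (2 ^ (r / C)) ≤
      C * (2 * N + 1) ^ k) ∧
    (∀ N : ℕ, ∑ a ∈ (box k N).filter (fun a => ¬ RadoCondition a), c a ≤ C * (2 * N + 1) ^ k) ∧
    (∀ a : Fin k → ℤ, ¬ RadoCondition a → ∀ A : ℕ, 16 ≤ A → (∀ i, |a i| ≤ A) →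
      Bound a (C * Nat.log 2 (Nat.log 2 A))) := by
  obtain ⟨C₁, h₁, hT⟩ := tail hk
  obtain ⟨C₂, hA⟩ := average hk
  obtain ⟨C₃, hU⟩ := universal hk
  refine ⟨C₁ + C₂ + C₃, by omega, ?_, ?_, ?_⟩
  · intro N r
    have h1 : 2 ^ (2 ^ (r / (C₁ + C₂ + C₃))) ≤ 2 ^ (2 ^ (r / C₁)) :=
      Nat.pow_le_pow_right (by norm_num) (Nat.pow_le_pow_right (by norm_num)
        (Nat.div_le_div_left (by omega) h₁))
    exact (Nat.mul_le_mul_left _ h1).trans ((hT N r).trans (Nat.mul_le_mul_right _ (by omega)))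
  · exact fun N => (hA N).trans (Nat.mul_le_mul_right _ (by omega))
  · exact fun a ha A h16 hle => (hU a ha A h16 hle).mono (Nat.mul_le_mul_right _ (by omega))

end Pool.Agent.Results.MP_13469d_co.AlmostAll
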