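import Pool.Agent.RadoE.Final

/-!
# Rado's boundedness conjecture: the constant must grow exponentially with the number of variables

For an integer tuple `a = (a₁, ..., a_k)` which fails Rado's condition let `c a` be the least number of colours of
a colouring of the positive integers without monochromatic solution of `a₁ x₁ + ... + a_k x_k = 0`. The boundedness
conjecture states that `c a ≤ C(k)`. We prove that such a constant is larger than `2^(k/60)` for every `k ≥ 2`, and
larger than `2^(k/7)` for all large `k`.

Method. Let `n = k - 3`. The tuple consists of the numbers `a i = (2^n + 2^i) N + F i`, `i < n`, where the `F i` are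
Fermat numbers and `N` is a huge multiple of `Q!`, of their sum `Z`, of `2 Z + 1`, and of `-(4 Z + 1 - S)`, where
`S = (Q!)^M` is small compared with `N`. The sum of all entries is `S`, and every other subset sum is at least `N - S` in
absolute value. A density increment finds a progression `c + (Q!)^j t`, `t < w`, on which one colour has density
`β ≥ 1 / r` and has no larger density in any residue class modulo `Q!` of any subinterval of length `w / K`. On it the
equation is `∑ a i t i = s` with a small `s`, and the number of solutions is computed by the circle method. At a point
`y` close to a rational with denominator at most `Q` the exponential sums are close to those of the constant weight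
`β`. At the other points `y` the multiples `a i y` are dissociated after the removal of one of them, and a Riesz
product shows that at most `2 log (2 / β) / δ² + 1` of the `n` sums exceed `δ β w`; together with the fourth moment
of two of the sums this bounds the error by the main term.
-/

namespace Pool.Agent.Results.MP_13469d_co.ExponentialColours

open Pool.Agent.RadoB

/-- For every `k ≥ 2` there is a tuple failing Rado's condition with `c a > 2^(k/60)`, and for every large `k` there is
one with `c a > 2^(k/7)`. (`∃ r, Bound a r` says that `c a` is attained.) -/
theorem result :
    (∀ k : ℕ, 2 ≤ k → ∃ a : Fin k → ℤ, ¬ RadoCondition a ∧ (∃ r, Bound a r) ∧ 2 ^ k < c a ^ 60) ∧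
    ∃ k₀ : ℕ, ∀ k : ℕ, k₀ ≤ k → ∃ a : Fin k → ℤ, ¬ RadoCondition a ∧ (∃ r, Bound a r) ∧ 2 ^ k < c a ^ 7 :=
  ⟨fun _ hk => Pool.Agent.RadoE.all_k hk, Pool.Agent.RadoE.large_k⟩

end Pool.Agent.Results.MP_13469d_co.ExponentialColours
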