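import Mathlib

/-!
# Rado's boundedness conjecture for tuples without cancellation at one place

For an integer tuple `a = (a₁, ..., a_k)` which fails Rado's condition let `c a` be the least number of colours of
a colouring of the positive integers without monochromatic solution of `a₁ x₁ + ... + a_k x_k = 0`, and let `s_J` be
the sum of the `a i`, `i ∈ J`. The boundedness conjecture states that `c a ≤ C(k)`. We prove that `c a ≤ C(k, K)` if
there is no cancellation at one place of the rational numbers: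

* the real place: no proper subset sum `s_J` is smaller than `1 / K` times an entry `a i`, `i ∈ J`; or
* a prime `p ≤ K`: `v_p (s_J) ≤ v_p (a i) + K` for all proper subsets `J` and `i ∈ J`; or
* a prime `p` of any size: `v_p (a i + a j) ≤ v_p (a i) + K` for two entries of equal valuation, and the valuations
  of three entries are not all within distance `K`.

In the first two cases there is no condition on the sum of all the entries.

Method. At a prime `p ≤ K` the valuations of the positive integers are coloured such that in a monochromatic solution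
the terms of small valuation are those of a set `J` of variables of equal valuation, and the other terms are divisible
by a higher power of `p` than `s_J`; the parts prime to `p` are coloured by the cells of their residues, multiplied
by `a i`, modulo `p ^ (v_p (s_J) + 1)`. At the real place the same is done with dyadic blocks. In the last
case a pair of terms of equal minimal valuation is handled by a colouring with three colours of the
graph of the multiplication by a residue different from one.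
-/

namespace Pool.Agent.Results.MP_13469d_co.OnePlace

open Finset

/-- Rado's condition: some nonempty subset of the coefficients has sum zero. -/
def RadoCondition {k : ℕ} (a : Fin k → ℤ) : Prop :=
  ∃ I : Finset (Fin k), I.Nonempty ∧ ∑ i ∈ I, a i = 0

/-- The colouring `χ` has a monochromatic solution of `a₁ x₁ + ... + a_k x_k = 0`. -/
def HasMonoSol {k r : ℕ} (a : Fin k → ℤ) (χ : ℕ+ → Fin r) : Prop :=
  ∃ x : Fin k → ℕ+, (∀ i j, χ (x i) = χ (x j)) ∧ ∑ i, a i * ((x i : ℕ) : ℤ) = 0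

/-- `c(a₁, ..., a_k)`: the least number of colours of a colouring without monochromatic
solution. -/
noncomputable def c {k : ℕ} (a : Fin k → ℤ) : ℕ :=
  sInf {r : ℕ | ∃ χ : ℕ+ → Fin r, ¬ HasMonoSol a χ}

/-- `c a ≤ r`, and a colouring with `c a` colours without monochromatic solution exists. -/
def Bound {k : ℕ} (a : Fin k → ℤ) (r : ℕ) : Prop :=
  c a ≤ r ∧ ∃ χ : ℕ+ → Fin (c a), ¬ HasMonoSol a χ

lemma Bound.mono {k : ℕ} {a : Fin k → ℤ} {r r' : ℕ} (h : Bound a r) (hr : r ≤ r') : Bound a r' :=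
  ⟨h.1.trans hr, h.2⟩

/-- a colouring by a finite type. -/
lemma bound_of {k : ℕ} {a : Fin k → ℤ} {α : Type} [Fintype α] (χ : ℕ → α)
    (h : ∀ x : Fin k → ℕ, (∀ i, 0 < x i) → (∀ i j, χ (x i) = χ (x j)) → ∑ i, a i * (x i : ℤ) ≠ 0) :
    Bound a (Fintype.card α) := by
  have h1 : (Fintype.card α) ∈ {r : ℕ | ∃ χ : ℕ+ → Fin r, ¬ HasMonoSol a χ} := by
    refine ⟨fun n => Fintype.equivFin α (χ n), ?_⟩
    rintro ⟨x, hx, hs⟩
    refine h (fun i => (x i : ℕ)) (fun i => (x i).pos) (fun i j => ?_) hs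
    exact (Fintype.equivFin α).injective (hx i j)
  exact ⟨Nat.sInf_le h1, Nat.sInf_mem ⟨_, h1⟩⟩

/-! ### forbidden differences -/

/-- two colours for every difference. -/
def bits {ι : Type} (D : ι → ℤ) (V : ℕ) : ι → Bool := fun s => decide ((V / (D s).natAbs) % 2 = 0)

lemma bits_ne {ι : Type} {D : ι → ℤ} {V V' : ℕ} (h : bits D V = bits D V') {s : ι} (hs : D s ≠ 0) :
    (V : ℤ) - V' ≠ D s := by
  intro h1
  have h2 := congrFun h s
  simp only [bits, decide_eq_decide] at h2
  obtain ⟨d, hd⟩ : ∃ d : ℕ, d = (D s).natAbs := ⟨_, rfl⟩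
  have hd0 : 0 < d := by omega
  rw [← hd] at h2
  rcases le_total V' V with h3 | h3
  · have e : V = V' + d := by omega
    rw [e, Nat.add_div_right _ hd0] at h2
    omega
  · have e : V' = V + d := by omega
    rw [e, Nat.add_div_right _ hd0] at h2
    omega

/-! ### cells -/

/-- the cell of `y` modulo `q`. -/
def cell (N q : ℕ) [NeZero N] (y : ℤ) : Fin N := Fin.ofNat N ((N * (y % q) / q).toNat)

lemma cell_close {N q : ℕ} [NeZero N] (hq : 0 < q) {y z : ℤ} (h : cell N q y = cell N q z) :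
    |y % q - z % q| * N < q := by
  have hq' : (0 : ℤ) < q := by exact_mod_cast hq
  have hN : 0 < N := Nat.pos_of_ne_zero (NeZero.ne N)
  have hN' : (0 : ℤ) < N := by exact_mod_cast hN
  have key : ∀ y : ℤ, 0 ≤ (N * (y % q) / q : ℤ) ∧ (N * (y % q) / q : ℤ) < N := by
    intro y
    have h1 := Int.emod_nonneg y hq'.ne'
    have h2 := Int.emod_lt_of_pos y hq'
    refine ⟨Int.ediv_nonneg (by positivity) hq'.le, ?_⟩
    apply Int.ediv_lt_of_lt_mul hq'
    exact mul_lt_mul_of_pos_left h2 hN'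
  have h3 : (N * (y % q) / q : ℤ) = N * (z % q) / q := by
    have h4 := congrArg Fin.val h
    simp only [cell, Fin.val_ofNat] at h4
    obtain ⟨a1, a2⟩ := key y
    obtain ⟨b1, b2⟩ := key z
    rw [Nat.mod_eq_of_lt (by omega), Nat.mod_eq_of_lt (by omega)] at h4
    omega
  have h5 := Int.mul_ediv_add_emod (N * (y % q)) q
  have h6 := Int.mul_ediv_add_emod (N * (z % q)) q
  have h7 := Int.emod_nonneg (N * (y % q)) hq'.ne'
  have h8 := Int.emod_lt_of_pos (N * (y % q)) hq'
  have h9 := Int.emod_nonneg (N * (z % q)) hq'.ne'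
  have h10 := Int.emod_lt_of_pos (N * (z % q)) hq'
  rw [h3] at h5
  have h11 : |y % q - z % q| * N = |N * (y % q) - N * (z % q)| := by
    rw [← mul_sub, abs_mul, abs_of_pos hN', mul_comm]
  rw [h11, abs_lt]
  constructor <;> linarith

/-- The key step: sums in equal cells. -/
lemma cell_sum {ι : Type} {N q : ℕ} [NeZero N] (hq : 0 < q) {J : Finset ι} (hJ : J.Nonempty) {y z : ι → ℤ}
    (h : ∀ i ∈ J, cell N q (y i) = cell N q (z i)) :
    ∃ R : ℤ, |R| * N < J.card * q ∧ (q : ℤ) ∣ (∑ i ∈ J, z i + R) - ∑ i ∈ J, y i := by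
  refine ⟨∑ i ∈ J, (y i % q - z i % q), ?_, ?_⟩
  · calc |∑ i ∈ J, (y i % q - z i % q)| * N ≤ (∑ i ∈ J, |y i % q - z i % q|) * N :=
        mul_le_mul_of_nonneg_right (abs_sum_le_sum_abs _ _) (by positivity)
      _ = ∑ i ∈ J, |y i % q - z i % q| * N := by rw [sum_mul]
      _ < ∑ i ∈ J, (q : ℤ) := sum_lt_sum_of_nonempty hJ fun i hi => cell_close hq (h i hi)
      _ = J.card * q := by rw [sum_const, nsmul_eq_mul]
  · have e : (∑ i ∈ J, z i + ∑ i ∈ J, (y i % q - z i % q)) - ∑ i ∈ J, y i =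
        ∑ i ∈ J, ((z i - z i % q) - (y i - y i % q)) := by
      simp only [sum_sub_distrib]
      ring
    rw [e]
    apply dvd_sum
    intro i _
    exact dvd_sub (Int.dvd_self_sub_emod) (Int.dvd_self_sub_emod)

/-- the colours. -/
abbrev Col (k m N : ℕ) : Type := (Fin k × Fin k × Fin (m + 1) → Bool) × (Finset (Fin k) → Fin k → Fin N)

lemma sum_ne {k : ℕ} {a : Fin k → ℤ} (ha : ¬ RadoCondition a) {J : Finset (Fin k)} (hJ : J.Nonempty) :
    ∑ i ∈ J, a i ≠ 0 := fun h => ha ⟨J, hJ, h⟩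

lemma coeff_ne {k : ℕ} {a : Fin k → ℤ} (ha : ¬ RadoCondition a) (i : Fin k) : a i ≠ 0 := by
  have h := sum_ne ha (singleton_nonempty i)
  rwa [sum_singleton] at h

/-! ### a finite place -/

section Prime

/-- The part of `x` prime to `p`. -/
def unit (p x : ℕ) : ℕ := x / p ^ padicValNat p x

lemma pow_mul_unit (p x : ℕ) : p ^ padicValNat p x * unit p x = x :=
  Nat.mul_div_cancel' pow_padicValNat_dvd

lemma not_dvd_unit (p : ℕ) [hp : Fact p.Prime] {x : ℕ} (hx : x ≠ 0) : ¬ p ∣ unit p x := by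
  intro h
  apply pow_succ_padicValNat_not_dvd (p := p) hx
  rw [pow_succ]
  conv_rhs => rw [← pow_mul_unit p x]
  exact Nat.mul_dvd_mul_left _ h

/-- no proper subset sum cancels by more than `K` digits at the prime `p`. -/
def PrimeGood {k : ℕ} (p K : ℕ) (a : Fin k → ℤ) : Prop :=
  ∀ J : Finset (Fin k), J.Nonempty → J ≠ univ → ∀ i ∈ J,
    padicValInt p (∑ j ∈ J, a j) ≤ padicValInt p (a i) + K

theorem prime_place {k : ℕ} (hk : 0 < k) {p : ℕ} (hp : p.Prime) {g : ℕ} {a : Fin k → ℤ}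
    (ha : ¬ RadoCondition a) (hg : PrimeGood p g a) : Bound a (Fintype.card (Col k g (k * p))) := by
  have : Fact p.Prime := ⟨hp⟩
  have : NeZero (k * p) := ⟨(Nat.mul_pos hk hp.pos).ne'⟩
  have : Nonempty (Fin k) := ⟨⟨0, hk⟩⟩
  obtain ⟨v, hv⟩ : ∃ v : Fin k → ℕ, v = fun i => padicValInt p (a i) := ⟨_, rfl⟩
  obtain ⟨σ, hσ⟩ : ∃ σ : Finset (Fin k) → ℕ, σ = fun J => padicValInt p (∑ j ∈ J, a j) := ⟨_, rfl⟩
  refine bound_of (fun x => (bits (fun s : Fin k × Fin k × Fin (g + 1) =>
      ((v s.2.1 : ℤ) - v s.1 + (s.2.2 : ℕ))) (padicValNat p x),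
    fun J i => cell (k * p) (p ^ (σ J + 1)) (a i * (unit p x : ℤ)))) ?_
  intro x hx hχ hsum
  obtain ⟨V, hV⟩ : ∃ V : Fin k → ℕ, V = fun i => padicValNat p (x i) := ⟨_, rfl⟩
  obtain ⟨j, -, hj⟩ := exists_min_image univ (fun i => v i + V i) univ_nonempty
  obtain ⟨J, hJ⟩ : ∃ J : Finset (Fin k), J = univ.filter (fun i => V i = V j) := ⟨_, rfl⟩
  have memJ : ∀ i, i ∈ J ↔ V i = V j := by
    intro i
    rw [hJ, mem_filter]
    simp
  have hjJ : j ∈ J := (memJ j).2 rfl
  have hJn : J.Nonempty := ⟨j, hjJ⟩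
  have hs0 := sum_ne ha hJn
  have hxV : ∀ i, (x i : ℤ) = (p : ℤ) ^ V i * (unit p (x i) : ℤ) := by
    intro i
    rw [hV]
    exact_mod_cast (pow_mul_unit p (x i)).symm
  have hxd : ∀ i, (p : ℤ) ^ V i ∣ (x i : ℤ) := fun i => ⟨_, hxV i⟩
  have had : ∀ i, (p : ℤ) ^ v i ∣ a i := by
    intro i
    rw [hv]
    exact padicValInt_dvd (a i)
  have claim1 : ∀ i, i ∉ J → σ J + V j + 1 ≤ v i + V i := by
    intro i hi
    have h1 := hj i (mem_univ i)
    have h2 : J ≠ univ := fun h => hi (h ▸ mem_univ i)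
    have h3 := hg J hJn h2 j hjJ
    have h3' : σ J ≤ v j + g := by
      rw [hσ, hv]
      exact h3
    by_contra hcon
    obtain ⟨e, he⟩ : ∃ e : ℕ, v i + V i = v j + V j + e := Nat.exists_eq_add_of_le h1
    have he2 : e < g + 1 := by omega
    have h4 := bits_ne (congrArg Prod.fst (hχ i j)) (s := (i, j, ⟨e, he2⟩)) (by
      have h5 : V i ≠ V j := fun h => hi ((memJ i).2 h)
      simp only
      omega)
    apply h4
    have h6 : padicValNat p (x i) = V i := by rw [hV]
    have h7 : padicValNat p (x j) = V j := by rw [hV]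
    rw [h6, h7]
    simp only
    omega
  have claim3 : (p : ℤ) ^ (σ J + V j + 1) ∣ ∑ i ∈ J, a i * (x i : ℤ) := by
    have h1 : ∑ i ∈ J, a i * (x i : ℤ) = - ∑ i ∈ Jᶜ, a i * (x i : ℤ) := by
      rw [← sum_add_sum_compl J] at hsum
      linarith
    rw [h1, dvd_neg]
    apply dvd_sum
    intro i hi
    have h2 := claim1 i (mem_compl.1 hi)
    refine (pow_dvd_pow _ h2).trans ?_
    rw [pow_add]
    exact mul_dvd_mul (had i) (hxd i)
  have claim4 : ((p ^ (σ J + 1) : ℕ) : ℤ) ∣ ∑ i ∈ J, a i * (unit p (x i) : ℤ) := by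
    have h1 : ∑ i ∈ J, a i * (x i : ℤ) = (p : ℤ) ^ V j * ∑ i ∈ J, a i * (unit p (x i) : ℤ) := by
      rw [mul_sum]
      apply sum_congr rfl
      intro i hi
      rw [hxV i, (memJ i).1 hi]
      ring
    rw [h1, show σ J + V j + 1 = V j + (σ J + 1) by ring, pow_add] at claim3
    have h2 : (p : ℤ) ^ V j ≠ 0 := pow_ne_zero _ (by exact_mod_cast hp.ne_zero)
    rw [Nat.cast_pow]
    exact (mul_dvd_mul_iff_left h2).1 claim3
  have hq : 0 < p ^ (σ J + 1) := pow_pos hp.pos _
  obtain ⟨R, hR, hdvd⟩ := cell_sum (N := k * p) hq hJn (y := fun i => a i * (unit p (x i) : ℤ))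
    (z := fun i => a i * (unit p (x j) : ℤ)) (fun i _ => congrFun (congrFun (congrArg Prod.snd (hχ i j)) J) i)
  have hdvd2 : ((p ^ (σ J + 1) : ℕ) : ℤ) ∣ (∑ i ∈ J, a i) * (unit p (x j) : ℤ) + R := by
    have := dvd_add hdvd claim4
    rw [sub_add_cancel, ← sum_mul] at this
    exact this
  have hsd : (p : ℤ) ^ σ J ∣ ∑ i ∈ J, a i := by
    rw [hσ]
    exact padicValInt_dvd _
  have hRd : (p : ℤ) ^ σ J ∣ R := by
    have h1 : (p : ℤ) ^ σ J ∣ (∑ i ∈ J, a i) * (unit p (x j) : ℤ) + R := by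
      refine dvd_trans ?_ hdvd2
      rw [Nat.cast_pow]
      exact pow_dvd_pow _ (Nat.le_succ _)
    exact (dvd_add_right (hsd.mul_right _)).1 h1
  have hR0 : R = 0 := by
    apply Int.eq_zero_of_abs_lt_dvd hRd
    have h1 : (J.card : ℤ) ≤ k := by
      have := card_le_univ J
      rw [Fintype.card_fin] at this
      exact_mod_cast this
    have hkp : (0 : ℤ) < (k : ℤ) * p := by
      have := Nat.mul_pos hk hp.pos
      exact_mod_cast this
    have h2 : |R| * ((k : ℤ) * p) < ((p : ℤ) ^ σ J) * ((k : ℤ) * p) := by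
      have h3 : (J.card : ℤ) * ((p ^ (σ J + 1) : ℕ) : ℤ) ≤ k * ((p ^ (σ J + 1) : ℕ) : ℤ) :=
        mul_le_mul_of_nonneg_right h1 (by positivity)
      have h4 : (k : ℤ) * ((p ^ (σ J + 1) : ℕ) : ℤ) = ((p : ℤ) ^ σ J) * ((k : ℤ) * p) := by
        push_cast
        ring
      have h5 : |R| * ((k * p : ℕ) : ℤ) < (J.card : ℤ) * ((p ^ (σ J + 1) : ℕ) : ℤ) := hR
      push_cast at h5 h3 h4 ⊢
      linarith
    exact lt_of_mul_lt_mul_right h2 hkp.le
  rw [hR0, add_zero] at hdvd2
  have hcop : IsCoprime ((p ^ (σ J + 1) : ℕ) : ℤ) (unit p (x j) : ℤ) := by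
    rw [Nat.isCoprime_iff_coprime]
    exact Nat.Coprime.pow_left _ ((Nat.Prime.coprime_iff_not_dvd hp).2 (not_dvd_unit p (hx j).ne'))
  have h1 := hcop.dvd_of_dvd_mul_right hdvd2
  rw [Nat.cast_pow, padicValInt_dvd_iff] at h1
  rcases h1 with h1 | h1
  · exact hs0 h1
  · rw [hσ] at h1
    simp only at h1
    omega

end Prime

/-! ### the real place -/

section Real

/-- no proper subset sum cancels by more than the factor `K` at the real place. -/
def RealGood {k : ℕ} (K : ℕ) (a : Fin k → ℤ) : Prop :=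
  ∀ J : Finset (Fin k), J.Nonempty → J ≠ univ → ∀ i ∈ J, |a i| ≤ K * |∑ j ∈ J, a j|

theorem real_place {k : ℕ} (hk : 0 < k) {K : ℕ} {a : Fin k → ℤ}
    (ha : ¬ RadoCondition a) (hg : RealGood K a) :
    Bound a (Fintype.card (Col k (4 * k * K) (8 * k))) := by
  have : NeZero (8 * k) := ⟨by omega⟩
  have : Nonempty (Fin k) := ⟨⟨0, hk⟩⟩
  obtain ⟨l, hl⟩ : ∃ l : Fin k → ℕ, l = fun i => Nat.log 2 (a i).natAbs := ⟨_, rfl⟩
  obtain ⟨S, hS⟩ : ∃ S : Finset (Fin k) → ℕ, S = fun J => (∑ j ∈ J, a j).natAbs := ⟨_, rfl⟩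
  refine bound_of (fun x => (bits (fun s : Fin k × Fin k × Fin (4 * k * K + 1) =>
      ((l s.2.1 : ℤ) - l s.1 - (s.2.2 : ℕ))) (Nat.log 2 x),
    fun J i => cell (8 * k) (4 * (S J * 2 ^ Nat.log 2 x)) (a i * (x : ℤ)))) ?_
  intro x hx hχ hsum
  obtain ⟨n, hn⟩ : ∃ n : Fin k → ℕ, n = fun i => Nat.log 2 (x i) := ⟨_, rfl⟩
  obtain ⟨j, -, hj⟩ := exists_max_image univ (fun i => l i + n i) univ_nonempty
  obtain ⟨J, hJ⟩ : ∃ J : Finset (Fin k), J = univ.filter (fun i => n i = n j) := ⟨_, rfl⟩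
  have memJ : ∀ i, i ∈ J ↔ n i = n j := by
    intro i
    rw [hJ, mem_filter]
    simp
  have hjJ : j ∈ J := (memJ j).2 rfl
  have hJn : J.Nonempty := ⟨j, hjJ⟩
  have hs0 := sum_ne ha hJn
  have hx1 : ∀ i, 2 ^ n i ≤ x i := by
    intro i
    rw [hn]
    exact Nat.pow_log_le_self 2 (hx i).ne'
  have hx2 : ∀ i, x i < 2 ^ (n i + 1) := by
    intro i
    rw [hn]
    exact Nat.lt_pow_succ_log_self (by norm_num) _
  have ha1 : ∀ i, 2 ^ l i ≤ (a i).natAbs := by
    intro i
    rw [hl]
    exact Nat.pow_log_le_self 2 (Int.natAbs_ne_zero.2 (coeff_ne ha i))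
  have ha2 : ∀ i, (a i).natAbs < 2 ^ (l i + 1) := by
    intro i
    rw [hl]
    exact Nat.lt_pow_succ_log_self (by norm_num) _
  have hSJ : 0 < S J := by
    rw [hS]
    exact Int.natAbs_pos.2 hs0
  have claim1 : ∀ i, i ∉ J → l i + n i + 4 * k * K + 1 ≤ l j + n j := by
    intro i hi
    have h1 := hj i (mem_univ i)
    by_contra hcon
    obtain ⟨e, he⟩ : ∃ e : ℕ, l j + n j = l i + n i + e := Nat.exists_eq_add_of_le h1
    have he2 : e < 4 * k * K + 1 := by omega
    have h4 := bits_ne (congrArg Prod.fst (hχ i j)) (s := (i, j, ⟨e, he2⟩)) (by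
      have h5 : n i ≠ n j := fun h => hi ((memJ i).2 h)
      simp only
      omega)
    apply h4
    have h6 : Nat.log 2 (x i) = n i := by rw [hn]
    have h7 : Nat.log 2 (x j) = n j := by rw [hn]
    rw [h6, h7]
    simp only
    omega
  obtain ⟨Q, hQ⟩ : ∃ Q : ℕ, Q = S J * 2 ^ n j := ⟨_, rfl⟩
  have hQ0 : 0 < Q := by
    rw [hQ]
    positivity
  have hQ0' : (0 : ℤ) < Q := by exact_mod_cast hQ0
  -- the other terms are small
  have claim2 : ∀ i, i ∉ J → |a i * (x i : ℤ)| * (2 * k) ≤ Q := by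
    intro i hi
    have h2 : J ≠ univ := fun h => hi (h ▸ mem_univ i)
    have h3 := hg J hJn h2 j hjJ
    have h3' : (a j).natAbs ≤ K * S J := by
      rw [hS]
      zify
      exact h3
    have hK : 0 < K := by
      rcases Nat.eq_zero_or_pos K with h | h
      · rw [h, zero_mul] at h3'
        have := Int.natAbs_pos.2 (coeff_ne ha j)
        omega
      · exact h
    have h4 : (a i).natAbs * x i ≤ 2 ^ (l i + 1) * 2 ^ (n i + 1) :=
      Nat.mul_le_mul (ha2 i).le (hx2 i).le
    have h5 : 2 ^ (l i + 1) * 2 ^ (n i + 1) * 2 ^ (4 * k * K) ≤ 2 * (2 ^ l j * 2 ^ n j) := by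
      rw [← pow_add, ← pow_add, ← pow_add, ← pow_succ']
      apply Nat.pow_le_pow_right (by norm_num)
      have := claim1 i hi
      omega
    have h6 : 2 ^ l j * 2 ^ n j ≤ K * S J * 2 ^ n j := Nat.mul_le_mul_right _ ((ha1 j).trans h3')
    have h7 : 4 * k * K ≤ 2 ^ (4 * k * K) := Nat.lt_two_pow_self.le
    have h8 : (a i).natAbs * x i * (4 * k * K) ≤ 2 * (K * Q) := by
      calc (a i).natAbs * x i * (4 * k * K) ≤ 2 ^ (l i + 1) * 2 ^ (n i + 1) * 2 ^ (4 * k * K) :=
            Nat.mul_le_mul h4 h7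
        _ ≤ 2 * (2 ^ l j * 2 ^ n j) := h5
        _ ≤ 2 * (K * S J * 2 ^ n j) := Nat.mul_le_mul_left _ h6
        _ = 2 * (K * Q) := by rw [hQ]; ring
    have h9 : (a i).natAbs * x i * (2 * k) ≤ Q := by
      have h10 : 2 * K * ((a i).natAbs * x i * (2 * k)) ≤ 2 * K * Q := by
        calc 2 * K * ((a i).natAbs * x i * (2 * k)) = (a i).natAbs * x i * (4 * k * K) := by ring
          _ ≤ 2 * (K * Q) := h8
          _ = 2 * K * Q := by ring
      exact Nat.le_of_mul_le_mul_left h10 (by omega)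
    have h11 : |a i * (x i : ℤ)| = ((a i).natAbs * x i : ℕ) := by
      rw [abs_mul, Nat.abs_cast, Int.abs_eq_natAbs]
      push_cast
      ring
    rw [h11]
    exact_mod_cast h9
  have claim3 : |∑ i ∈ J, a i * (x i : ℤ)| * 2 ≤ Q := by
    have h1 : ∑ i ∈ J, a i * (x i : ℤ) = - ∑ i ∈ Jᶜ, a i * (x i : ℤ) := by
      rw [← sum_add_sum_compl J] at hsum
      linarith
    have hk' : (0 : ℤ) < k := by exact_mod_cast hk
    rw [h1, abs_neg]
    have h2 : |∑ i ∈ Jᶜ, a i * (x i : ℤ)| * (2 * k) ≤ k * Q := by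
      calc |∑ i ∈ Jᶜ, a i * (x i : ℤ)| * (2 * k) ≤ (∑ i ∈ Jᶜ, |a i * (x i : ℤ)|) * (2 * k) :=
            mul_le_mul_of_nonneg_right (abs_sum_le_sum_abs _ _) (by positivity)
        _ = ∑ i ∈ Jᶜ, |a i * (x i : ℤ)| * (2 * k) := by rw [sum_mul]
        _ ≤ ∑ i ∈ Jᶜ, (Q : ℤ) := sum_le_sum fun i hi => claim2 i (mem_compl.1 hi)
        _ = (Jᶜ).card * Q := by rw [sum_const, nsmul_eq_mul]
        _ ≤ k * Q := by
            apply mul_le_mul_of_nonneg_right _ hQ0'.le
            have := card_le_univ Jᶜ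
            rw [Fintype.card_fin] at this
            exact_mod_cast this
    have h3 : (|∑ i ∈ Jᶜ, a i * (x i : ℤ)| * 2) * k ≤ Q * k := by linarith
    exact le_of_mul_le_mul_right h3 hk'
  have hq : 0 < 4 * (S J * 2 ^ n j) := by
    rw [← hQ]
    omega
  obtain ⟨R, hR, hdvd⟩ := cell_sum (N := 8 * k) hq hJn (y := fun i => a i * (x i : ℤ))
    (z := fun i => a i * (x j : ℤ)) (fun i hi => by
      have h1 := congrFun (congrFun (congrArg Prod.snd (hχ i j)) J) i
      simp only at h1
      have h6 : Nat.log 2 (x i) = n j := by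
        rw [← (memJ i).1 hi, hn]
      have h7 : Nat.log 2 (x j) = n j := by rw [hn]
      rw [h6, h7] at h1
      exact h1)
  rw [← hQ] at hdvd hR
  rw [← sum_mul] at hdvd
  have hR2 : |R| * 2 < Q := by
    have h1 : (J.card : ℤ) ≤ k := by
      have := card_le_univ J
      rw [Fintype.card_fin] at this
      exact_mod_cast this
    have hk' : (0 : ℤ) < k := by exact_mod_cast hk
    have h2 : (J.card : ℤ) * ((4 * Q : ℕ) : ℤ) ≤ k * ((4 * Q : ℕ) : ℤ) :=
      mul_le_mul_of_nonneg_right h1 (by positivity)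
    push_cast at hR h2
    have h3 : |R| * 2 * (4 * k) < Q * (4 * k) := by linarith
    exact lt_of_mul_lt_mul_right h3 (by positivity)
  have hsx : |(∑ i ∈ J, a i) * (x j : ℤ)| = S J * x j := by
    rw [abs_mul, Nat.abs_cast, Int.abs_eq_natAbs, hS]
  have hsx1 : (Q : ℤ) ≤ |(∑ i ∈ J, a i) * (x j : ℤ)| := by
    rw [hsx, hQ]
    have := Nat.mul_le_mul_left (S J) (hx1 j)
    exact_mod_cast this
  have hsx2 : |(∑ i ∈ J, a i) * (x j : ℤ)| < 2 * Q := by
    rw [hsx, hQ]
    have := Nat.mul_lt_mul_of_pos_left (hx2 j) hSJ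
    rw [pow_succ] at this
    have h1 : S J * x j < 2 * (S J * 2 ^ n j) := by
      calc S J * x j < S J * (2 ^ n j * 2) := this
        _ = 2 * (S J * 2 ^ n j) := by ring
    exact_mod_cast h1
  have hE := Int.eq_zero_of_abs_lt_dvd hdvd (by
    have h1 := abs_sub ((∑ i ∈ J, a i) * (x j : ℤ) + R) (∑ i ∈ J, a i * (x i : ℤ))
    have h2 := abs_add_le ((∑ i ∈ J, a i) * (x j : ℤ)) R
    push_cast
    linarith)
  have h1 : (∑ i ∈ J, a i) * (x j : ℤ) = ∑ i ∈ J, a i * (x i : ℤ) - R := by linarith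
  have h2 := abs_sub (∑ i ∈ J, a i * (x i : ℤ)) R
  rw [← h1] at h2
  linarith

end Real

/-! ### bounded places -/

theorem bounded_place {k : ℕ} (hk : 0 < k) (K : ℕ) : ∃ C : ℕ, ∀ a : Fin k → ℤ, ¬ RadoCondition a →
    (RealGood K a ∨ ∃ p ≤ K, p.Prime ∧ PrimeGood p K a) → Bound a C := by
  refine ⟨Fintype.card (Col k (4 * k * K) (8 * k)) + ∑ p ∈ range (K + 1), Fintype.card (Col k K (k * p)), ?_⟩
  intro a ha h
  rcases h with h | ⟨p, hpK, hp, h⟩
  · exact (real_place hk ha h).mono (Nat.le_add_right _ _)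
  · refine (prime_place hk hp ha h).mono ?_
    exact le_trans (single_le_sum (f := fun p => Fintype.card (Col k K (k * p))) (fun _ _ => Nat.zero_le _)
      (mem_range.2 (by omega))) (Nat.le_add_left _ _)

/-! ### large primes -/

section Large

lemma three_col {α : Type} [Fintype α] [DecidableEq α] (f : α → α) (hf : Function.Injective f) :
    ∃ κ : α → Fin 3, ∀ y, f y ≠ y → κ (f y) ≠ κ y := by
  have h : ∀ s : Finset α, ∃ κ : α → Fin 3, ∀ y ∈ s, f y ∈ s → f y ≠ y → κ (f y) ≠ κ y := by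
    intro s
    induction s using Finset.induction_on with
    | empty => exact ⟨fun _ => 0, fun y hy => absurd hy (notMem_empty y)⟩
    | insert a s ha ih =>
      obtain ⟨κ, hκ⟩ := ih
      obtain ⟨b, hb⟩ : ∃ b : Fin 3, ∀ y, f y = a → κ y = b := by
        by_cases h : ∃ y, f y = a
        · obtain ⟨y, hy⟩ := h
          exact ⟨κ y, fun z hz => by rw [hf (hz.trans hy.symm)]⟩
        · exact ⟨0, fun y hy => absurd ⟨y, hy⟩ h⟩
      have h3 : ∀ b d : Fin 3, ∃ c : Fin 3, c ≠ b ∧ c ≠ d := by decide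
      obtain ⟨c, hc1, hc2⟩ := h3 b (κ (f a))
      refine ⟨Function.update κ a c, ?_⟩
      intro y hy hfy hne
      by_cases hya : y = a
      · subst hya
        rw [Function.update_self, Function.update_of_ne hne]
        exact hc2.symm
      · have hys : y ∈ s := (mem_insert.1 hy).resolve_left hya
        rw [Function.update_of_ne hya]
        by_cases hfa : f y = a
        · rw [hfa, Function.update_self, hb y hfa]
          exact hc1
        · rw [Function.update_of_ne hfa]
          exact hκ y hys ((mem_insert.1 hfy).resolve_left hfa) hne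
  obtain ⟨κ, hκ⟩ := h univ
  exact ⟨κ, fun y hy => hκ y (mem_univ _) (mem_univ _) hy⟩

/-- The sum of two entries of equal valuation cancels by at most `K` digits at the prime `p`, and the valuations of three
entries are not all within distance `K`. -/
def ClassGood {k : ℕ} (p K : ℕ) (a : Fin k → ℤ) : Prop :=
  (∀ i j, i ≠ j → padicValInt p (a i) = padicValInt p (a j) →
    padicValInt p (a i + a j) ≤ padicValInt p (a i) + K) ∧
  ∀ i j l, i ≠ j → j ≠ l → i ≠ l → padicValInt p (a i) ≤ padicValInt p (a j) →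
    padicValInt p (a j) ≤ padicValInt p (a l) → padicValInt p (a i) + K < padicValInt p (a l)

theorem large_prime {k : ℕ} (hk : 0 < k) {p : ℕ} (hp : p.Prime) {K : ℕ} {a : Fin k → ℤ}
    (ha : ¬ RadoCondition a) (hg : ClassGood p K a) :
    Bound a (2 ^ (k * (k * (K + 1))) * 3 ^ (k * k)) := by
  classical
  have : Fact p.Prime := ⟨hp⟩
  have : NeZero (p ^ (K + 1)) := ⟨pow_ne_zero _ hp.ne_zero⟩
  have : Nonempty (Fin k) := ⟨⟨0, hk⟩⟩
  obtain ⟨hg2, hg3⟩ := hg
  have ha0 : ∀ i, a i ≠ 0 := coeff_ne ha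
  obtain ⟨v, hv⟩ : ∃ v : Fin k → ℕ, v = fun i => padicValInt p (a i) := ⟨_, rfl⟩
  have hvi : ∀ i, padicValInt p (a i) = v i := fun i => by rw [hv]
  have hb : ∀ i, ∃ b : ℤ, a i = (p : ℤ) ^ v i * b := by
    intro i
    rw [hv]
    exact padicValInt_dvd (a i)
  choose b hb using hb
  have hbp : ∀ i, ¬ (p : ℤ) ∣ b i := by
    rintro i ⟨d, hd⟩
    have h1 : (p : ℤ) ^ (v i + 1) ∣ a i := ⟨d, by rw [hb i, hd, pow_succ]; ring⟩
    rw [padicValInt_dvd_iff, hvi] at h1
    rcases h1 with h1 | h1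
    · exact ha0 i h1
    · omega
  have hbs : ∀ i j, i ≠ j → v i = v j → ¬ ((p ^ (K + 1) : ℕ) : ℤ) ∣ b i + b j := by
    rintro i j hij hvij ⟨d, hd⟩
    have h1 : (p : ℤ) ^ (v i + (K + 1)) ∣ a i + a j := ⟨d, by
      rw [hb i, hb j, ← hvij, pow_add, ← mul_add, hd]
      push_cast
      ring⟩
    have h2 := hg2 i j hij (by rw [hvi, hvi, hvij])
    rw [hvi] at h2
    rw [padicValInt_dvd_iff] at h1
    rcases h1 with h1 | h1
    · have h3 := sum_ne ha (J := {i, j}) ⟨i, by simp⟩
      rw [sum_pair hij] at h3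
      exact h3 h1
    · omega
  have hpp : Prime (p : ℤ) := Nat.prime_iff_prime_int.1 hp
  have hunit' : ∀ z : ℤ, ¬ (p : ℤ) ∣ z → IsUnit (z : ZMod (p ^ (K + 1))) := by
    intro z hz
    rw [ZMod.coe_int_isUnit_iff_isCoprime]
    push_cast
    exact IsCoprime.pow_left ((Prime.coprime_iff_not_dvd hpp).2 hz)
  -- the colourings of pairs
  have hκ : ∀ s : Fin k × Fin k, ∃ κ : ZMod (p ^ (K + 1)) → Fin 3, s.1 ≠ s.2 → v s.1 = v s.2 →
      ∀ y z : ZMod (p ^ (K + 1)), IsUnit y →
      (b s.1 : ZMod (p ^ (K + 1))) * y + (b s.2 : ZMod (p ^ (K + 1))) * z = 0 → κ z ≠ κ y := by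
    rintro ⟨i, j⟩
    by_cases hij : i = j
    · exact ⟨fun _ => 0, fun h => absurd hij h⟩
    by_cases hvij : v i = v j
    · obtain ⟨ui, hui⟩ := hunit' _ (hbp i)
      obtain ⟨uj, huj⟩ := hunit' _ (hbp j)
      have hbij : (b i : ZMod (p ^ (K + 1))) + (b j : ZMod (p ^ (K + 1))) ≠ 0 := by
        rw [← Int.cast_add, Ne, ZMod.intCast_zmod_eq_zero_iff_dvd]
        exact hbs i j hij hvij
      obtain ⟨κ, hκ⟩ := three_col (fun y : ZMod (p ^ (K + 1)) => (-(uj⁻¹ * ui) : (ZMod (p ^ (K + 1)))ˣ) * y) (by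
        intro y z h
        exact (Units.mul_right_inj _).1 h)
      refine ⟨κ, fun _ _ y z hy h => ?_⟩
      simp only at h
      rw [← hui, ← huj] at h hbij
      have h1 : z = (-(uj⁻¹ * ui) : (ZMod (p ^ (K + 1)))ˣ) * y := by
        rw [← Units.mul_right_inj uj]
        push_cast
        have h2 : (uj : ZMod (p ^ (K + 1))) * ((uj⁻¹ : (ZMod (p ^ (K + 1)))ˣ) : ZMod (p ^ (K + 1))) = 1 := by
          rw [← Units.val_mul, mul_inv_cancel, Units.val_one]
        linear_combination h + (ui : ZMod (p ^ (K + 1))) * y * h2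
      rw [h1]
      apply hκ
      intro h2
      rw [← h1] at h2
      rw [h2, ← add_mul] at h
      obtain ⟨uy, huy⟩ := hy
      rw [← huy] at h
      apply hbij
      have h3 := congrArg (fun w => w * ((uy⁻¹ : (ZMod (p ^ (K + 1)))ˣ) : ZMod (p ^ (K + 1)))) h
      simp only [zero_mul, mul_assoc] at h3
      rwa [← Units.val_mul, mul_inv_cancel, Units.val_one, mul_one] at h3
    · exact ⟨fun _ => 0, fun _ h => absurd h hvij⟩
  choose κ hκ using hκ
  have hbd := bound_of (a := a) (α := (Fin k × Fin k × Fin (K + 1) → Bool) × (Fin k × Fin k → Fin 3))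
    (fun x => (bits (fun s : Fin k × Fin k × Fin (K + 1) => ((v s.2.1 : ℤ) - v s.1 + (s.2.2 : ℕ))) (padicValNat p x),
      fun s => κ s (unit p x : ZMod (p ^ (K + 1))))) (by
    intro x hx hχ hsum
    obtain ⟨V, hV⟩ : ∃ V : Fin k → ℕ, V = fun i => padicValNat p (x i) := ⟨_, rfl⟩
    obtain ⟨i, -, hi⟩ := exists_min_image univ (fun i => v i + V i) univ_nonempty
    have hxV : ∀ i, (x i : ℤ) = (p : ℤ) ^ V i * (unit p (x i) : ℤ) := by
      intro i
      rw [hV]
      exact_mod_cast (pow_mul_unit p (x i)).symm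
    have hax : ∀ i, a i * (x i : ℤ) = (p : ℤ) ^ (v i + V i) * (b i * (unit p (x i) : ℤ)) := by
      intro i
      rw [hxV i, hb i, pow_add]
      ring
    have hunit : ∀ i, ¬ (p : ℤ) ∣ (unit p (x i) : ℤ) := by
      intro i h
      exact not_dvd_unit p (hx i).ne' (Int.natCast_dvd_natCast.1 h)
    have hbu : ∀ i, ¬ (p : ℤ) ∣ b i * (unit p (x i) : ℤ) := by
      intro i h
      rcases hpp.dvd_or_dvd h with h | h
      · exact hbp i h
      · exact hunit i h
    obtain ⟨t, ht⟩ : ∃ t : ℕ, t = v i + V i := ⟨_, rfl⟩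
    have hit : ∀ l, t ≤ v l + V l := by
      intro l
      rw [ht]
      exact hi l (mem_univ l)
    -- terms of nearly minimal valuation belong to variables of equal valuation
    have hmin : ∀ l, v l + V l ≤ t + K → V l = V i := by
      intro l hl
      by_contra hne
      obtain ⟨e, he⟩ : ∃ e : ℕ, v l + V l = t + e := Nat.exists_eq_add_of_le (hit l)
      have he2 : e < K + 1 := by omega
      apply bits_ne (congrArg Prod.fst (hχ l i)) (s := (l, i, ⟨e, he2⟩)) (by simp only; omega)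
      have h6 : padicValNat p (x l) = V l := by rw [hV]
      have h7 : padicValNat p (x i) = V i := by rw [hV]
      rw [h6, h7]
      simp only
      omega
    have hpt : (p : ℤ) ^ t ≠ 0 := pow_ne_zero _ (by exact_mod_cast hp.ne_zero)
    -- the other terms are not all divisible by a higher power
    have hne1 : (∀ l, l ≠ i → t < v l + V l) → False := by
      intro hS
      have h4 := add_sum_erase univ (fun l => a l * (x l : ℤ)) (mem_univ i)
      rw [hsum] at h4
      have h5 : (p : ℤ) ^ (t + 1) ∣ ∑ l ∈ univ.erase i, a l * (x l : ℤ) := by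
        apply dvd_sum
        intro l hl
        rw [hax l]
        exact Dvd.dvd.mul_right (pow_dvd_pow _ (hS l (ne_of_mem_erase hl))) _
      have h6 : (p : ℤ) ^ (t + 1) ∣ a i * (x i : ℤ) := by
        have h7 : a i * (x i : ℤ) = - ∑ l ∈ univ.erase i, a l * (x l : ℤ) := by linarith
        rw [h7, dvd_neg]
        exact h5
      rw [hax i, ← ht, pow_succ] at h6
      exact hbu i ((mul_dvd_mul_iff_left hpt).1 h6)
    by_cases h2 : ∃ j, j ≠ i ∧ v j + V j ≤ t + K
    · obtain ⟨j, hji, hj⟩ := h2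
      have hVij : V j = V i := hmin j hj
      have hrest : ∀ l, l ≠ i → l ≠ j → t + K < v l + V l := by
        intro l hli hlj
        by_contra h4
        have h5 := hmin l (by omega)
        have h6 := hit l
        have h6' := hit j
        rcases le_total (v j) (v l) with h7 | h7
        · have h8 := hg3 i j l (Ne.symm hji) (Ne.symm hlj) (Ne.symm hli) (by rw [hvi, hvi]; omega)
            (by rw [hvi, hvi]; exact h7)
          rw [hvi, hvi] at h8
          omega
        · have h8 := hg3 i l j (Ne.symm hli) hlj (Ne.symm hji) (by rw [hvi, hvi]; omega)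
            (by rw [hvi, hvi]; exact h7)
          rw [hvi, hvi] at h8
          omega
      by_cases hvij : v j = v i
      · have h3 : ∑ l, a l * (x l : ℤ) = ∑ l ∈ univ \ ({i, j} : Finset (Fin k)), a l * (x l : ℤ) +
            (a i * (x i : ℤ) + a j * (x j : ℤ)) := by
          rw [← sum_sdiff (subset_univ ({i, j} : Finset (Fin k))), sum_pair (Ne.symm hji)]
        rw [hsum] at h3
        have h4 : (p : ℤ) ^ (t + (K + 1)) ∣ a i * (x i : ℤ) + a j * (x j : ℤ) := by
          have h5 : (p : ℤ) ^ (t + (K + 1)) ∣ ∑ l ∈ univ \ ({i, j} : Finset (Fin k)), a l * (x l : ℤ) := by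
            apply dvd_sum
            intro l hl
            rw [mem_sdiff, mem_insert, mem_singleton, not_or] at hl
            rw [hax l]
            exact Dvd.dvd.mul_right (pow_dvd_pow _ (hrest l hl.2.1 hl.2.2)) _
          have h6 : a i * (x i : ℤ) + a j * (x j : ℤ) =
              - ∑ l ∈ univ \ ({i, j} : Finset (Fin k)), a l * (x l : ℤ) := by linarith
          rw [h6, dvd_neg]
          exact h5
        have htj : v j + V j = t := by omega
        rw [hax i, hax j, htj, ← ht, ← mul_add, pow_add] at h4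
        have h5 := (mul_dvd_mul_iff_left hpt).1 h4
        have h6 : (b i : ZMod (p ^ (K + 1))) * ((unit p (x i) : ℕ) : ZMod (p ^ (K + 1))) +
            (b j : ZMod (p ^ (K + 1))) * ((unit p (x j) : ℕ) : ZMod (p ^ (K + 1))) = 0 := by
          have h7 := (ZMod.intCast_zmod_eq_zero_iff_dvd (b i * (unit p (x i) : ℤ) + b j * (unit p (x j) : ℤ))
            (p ^ (K + 1))).2 (by push_cast; exact h5)
          push_cast at h7
          exact h7
        have h7 : IsUnit ((unit p (x i) : ℕ) : ZMod (p ^ (K + 1))) := by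
          have h8 := hunit' _ (hunit i)
          rwa [Int.cast_natCast] at h8
        apply hκ (i, j) (Ne.symm hji) hvij.symm _ _ h7 h6
        exact congrFun (congrArg Prod.snd (hχ j i)) (i, j)
      · have hlt : t < v j + V j := by
          have := hit j
          omega
        refine hne1 fun l hl => ?_
        by_cases hlj : l = j
        · rw [hlj]
          exact hlt
        · have := hrest l hl hlj
          omega
    · push Not at h2
      refine hne1 fun l hl => ?_
      have := h2 l hl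
      omega)
  rw [Fintype.card_prod, Fintype.card_fun, Fintype.card_fun, Fintype.card_prod, Fintype.card_prod, Fintype.card_prod,
    Fintype.card_bool, Fintype.card_fin, Fintype.card_fin, Fintype.card_fin] at hbd
  exact hbd

end Large

/-! ### the result -/

/-- Rado's boundedness conjecture for tuples without cancellation at one place. -/
theorem result (k : ℕ) (hk : 0 < k) (K : ℕ) : ∃ C : ℕ, ∀ a : Fin k → ℤ, ¬ RadoCondition a →
    (RealGood K a ∨ (∃ p ≤ K, p.Prime ∧ PrimeGood p K a) ∨ ∃ p : ℕ, p.Prime ∧ ClassGood p K a) → Bound a C := by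
  obtain ⟨C, hC⟩ := bounded_place hk K
  refine ⟨C + 2 ^ (k * (k * (K + 1))) * 3 ^ (k * k), fun a ha h => ?_⟩
  rcases h with h | h | ⟨p, hp, h⟩
  · exact (hC a ha (Or.inl h)).mono (Nat.le_add_right _ _)
  · exact (hC a ha (Or.inr h)).mono (Nat.le_add_right _ _)
  · exact (large_prime hk hp ha h).mono (Nat.le_add_left _ _)

end Pool.Agent.Results.MP_13469d_co.OnePlace
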