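import Pool.Agent.RadoB.Groups

/-!
# Rado's boundedness conjecture for tuples in two groups of bounded ratio

For an integer tuple `a = (a₁, ..., a_k)` which fails Rado's condition let `c a` be the least number of colours of
a colouring of the positive integers without monochromatic solution of `a₁ x₁ + ... + a_k x_k = 0`. The boundedness
conjecture states that `c a ≤ C(k)`. We prove `c a ≤ C(k, K)` if

* the entries are in two groups, and in each group they are multiples `A b i` of one integer `A` (of any size) with
  integers `|b i| ≤ K`, for example if at most two values occur, or if all entries but one are bounded; or
* for some prime `p` of any size the entries of equal `p`-adic valuation are proportional modulo `p` to integers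
  `|b i| ≤ K` with no subset sum divisible by `p`.

Method. The second part: a positive integer is coloured by its valuation such that in a monochromatic solution the terms
of minimal valuation belong to variables of equal valuation; so modulo `p` there is a monochromatic solution of
`∑ b i x i = 0` with units `x i`. The units modulo `p` are coloured, with a number of colours independent of `p`: if
`s x` has a small residue `R` for some small `s`, then by `s`, the sign and the last nonzero digit of `R` in a base `q`
(`q` a prime larger than `k K + 1`); otherwise by the position of the residue of `x`. The first part: let `A₁`, `A₂` be the
factors of the groups. If a prime larger than `k K` has different valuations at `A₁`, `A₂`, this is the second part. If a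
prime `p ≤ k K` has very different valuations at `A₁`, `A₂`, then no subset sum cancels by many digits at `p`.
Otherwise `A₁ / A₂` has bounded height, and Rado's colouring in a large base is used.
-/

namespace Pool.Agent.Results.MP_13469d_co.TwoGroups

open Pool.Agent.RadoB

/-- Rado's boundedness conjecture for tuples in two groups of bounded ratio, and for tuples with bounded ratios in the
classes of equal valuation at a prime. -/
theorem result (k : ℕ) (hk : 0 < k) (K : ℕ) : ∃ C : ℕ, ∀ a : Fin k → ℤ, ¬ RadoCondition a →
    (TwoGroups K a ∨ ∃ p : ℕ, p.Prime ∧ PropGood p K a) → Bound a C := by
  obtain ⟨C₁, h₁⟩ := two_groups hk K
  obtain ⟨C₂, h₂⟩ := prop_place hk K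
  refine ⟨C₁ + C₂, fun a ha h => ?_⟩
  rcases h with h | ⟨p, hp, h⟩
  · exact (h₁ a ha h).mono (Nat.le_add_right _ _)
  · exact (h₂ p hp a ha h).mono (Nat.le_add_left _ _)

end Pool.Agent.Results.MP_13469d_co.TwoGroups
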